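import Pool.Agent.War.Stmts

/-!
# Simultaneous Waring decompositions (MP_db021c_ag): arithmetic   (helper7)
-/

set_option autoImplicit false

namespace Pool.Agent.War

theorem AR_rec (k d : ℕ) : (k + 1) * NN (k + 1) d = (k + 1 + d) * NN k d := by
  have h := Nat.add_one_mul_choose_eq (k + d) k
  unfold NN
  rw [show k + 1 + d = k + d + 1 by ring, h]
  ring

theorem AR_mono (k d : ℕ) : NN k d ≤ NN (k + 1) d := by
  have h := AR_rec k d
  have h1 : (k + 1) * NN k d ≤ (k + 1) * NN (k + 1) d := by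
    rw [h]
    exact Nat.mul_le_mul_right _ (by omega)
  exact Nat.le_of_mul_le_mul_left h1 (by omega)

theorem AR_ge (k d : ℕ) : d + 1 ≤ NN (k + 1) d := by
  induction k with
  | zero => rw [NN_one]
  | succ k ih => exact ih.trans (AR_mono _ _)

theorem AR_ratio (a e : ℕ) : ∀ k : ℕ,
    (((e + a : ℕ) : ℤ) + 1 - k * a) * NN k (e + a) ≤ (((e + a : ℕ) : ℤ) + 1) * NN k e
  | 0 => by simp
  | k + 1 => by
    have ih := AR_ratio a e k
    have h1 : ((k : ℤ) + 1) * NN (k + 1) (e + a) = ((k : ℤ) + 1 + (e + a : ℕ)) * NN k (e + a) := by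
      exact_mod_cast AR_rec k (e + a)
    have h2 : ((k : ℤ) + 1) * NN (k + 1) e = ((k : ℤ) + 1 + e) * NN k e := by
      exact_mod_cast AR_rec k e
    have hk : (0 : ℤ) < (k : ℤ) + 1 := by positivity
    refine le_of_mul_le_mul_left ?_ hk
    have h3 : ((k : ℤ) + 1) * ((((e + a : ℕ) : ℤ) + 1) * NN (k + 1) e) =
        ((k : ℤ) + 1 + e) * ((((e + a : ℕ) : ℤ) + 1) * NN k e) := by
      linear_combination (((e + a : ℕ) : ℤ) + 1) * h2
    have h4 : ((k : ℤ) + 1) * ((((e + a : ℕ) : ℤ) + 1 - ((k + 1 : ℕ) : ℤ) * a) *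
        NN (k + 1) (e + a)) = (((e + a : ℕ) : ℤ) + 1 - ((k + 1 : ℕ) : ℤ) * a) *
        (((k : ℤ) + 1 + (e + a : ℕ)) * NN k (e + a)) := by
      linear_combination (((e + a : ℕ) : ℤ) + 1 - ((k + 1 : ℕ) : ℤ) * a) * h1
    rw [h3, h4]
    have h5 := mul_le_mul_of_nonneg_left ih (by positivity : (0 : ℤ) ≤ (k : ℤ) + 1 + e)
    refine le_trans ?_ h5
    have h6 : (0 : ℤ) ≤ (NN k (e + a) : ℤ) := by positivity
    have h7 : (((e + a : ℕ) : ℤ) + 1 - ((k + 1 : ℕ) : ℤ) * a) * ((k : ℤ) + 1 + (e + a : ℕ)) ≤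
        ((k : ℤ) + 1 + e) * (((e + a : ℕ) : ℤ) + 1 - k * a) := by
      push_cast
      have e1 : ((k : ℤ) + 1 + e) * (((e : ℤ) + a) + 1 - k * a) -
          ((((e : ℤ) + a) + 1 - ((k : ℤ) + 1) * a) * ((k : ℤ) + 1 + (e + a))) =
          a * (k + k * a) := by ring
      have e2 : (0 : ℤ) ≤ a * (k + k * a) := by positivity
      linarith
    calc _ = ((((e + a : ℕ) : ℤ) + 1 - ((k + 1 : ℕ) : ℤ) * a) * ((k : ℤ) + 1 + (e + a : ℕ))) *
          NN k (e + a) := by ring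
      _ ≤ (((k : ℤ) + 1 + e) * (((e + a : ℕ) : ℤ) + 1 - k * a)) * NN k (e + a) :=
          mul_le_mul_of_nonneg_right h7 h6
      _ = _ := by ring

theorem AR : S_AR := by
  intro n d hn hd
  have hn2 : 2 * n ^ 2 ≤ n ^ 3 := by
    rw [pow_succ n 2, mul_comm]
    exact Nat.mul_le_mul_left _ hn
  have hd' : 2 * n + 2 ≤ d := by nlinarith
  obtain ⟨e, he⟩ : ∃ e, d = e + (2 * n + 2) := ⟨d - (2 * n + 2), by omega⟩
  have he' : d - 2 * n - 2 = e := by omega
  refine ⟨?_, ?_, ?_⟩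
  · rw [he']
    have h1 := AR_ratio (2 * n + 2) e n
    rw [← he] at h1
    have hD : (n : ℤ) * (2 * n + 2) * (2 * n + 1) ≤ ((n : ℤ) - 1) * ((d : ℤ) + 1) := by
      have h2 : ((n : ℤ) ^ 3 + 60) ≤ d := by exact_mod_cast hd
      have h3 : (2 : ℤ) ≤ n := by exact_mod_cast hn
      have h4 : ((n : ℤ) - 1) * ((n : ℤ) ^ 3 + 61) ≤ ((n : ℤ) - 1) * ((d : ℤ) + 1) :=
        mul_le_mul_of_nonneg_left (by linarith) (by linarith)
      refine le_trans ?_ h4
      rcases Nat.lt_or_ge n 7 with h7 | h7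
      · interval_cases n <;> norm_num
      · have h8 : (7 : ℤ) ≤ n := by exact_mod_cast h7
        obtain ⟨m, hm⟩ : ∃ m : ℤ, (n : ℤ) = m + 7 := ⟨n - 7, by ring⟩
        have hm0 : 0 ≤ m := by linarith
        rw [hm]
        have e1 : (m + 7 - 1) * ((m + 7) ^ 3 + 61) - (m + 7) * (2 * (m + 7) + 2) *
            (2 * (m + 7) + 1) = m ^ 4 + 23 * m ^ 3 + 183 * m ^ 2 + 612 * m + 744 := by ring
        have e2 : 0 ≤ m ^ 4 + 23 * m ^ 3 + 183 * m ^ 2 + 612 * m + 744 := by positivity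
        linarith
    have h5 : (((n : ℤ) + 2) * NN n d) ≤ (2 * (n : ℤ) + 1) * NN n e := by
      have hpos : (0 : ℤ) < (d : ℤ) + 1 := by positivity
      refine le_of_mul_le_mul_left ?_ hpos
      have h6 := mul_le_mul_of_nonneg_left h1 (by positivity : (0 : ℤ) ≤ 2 * (n : ℤ) + 1)
      have h7 : (0 : ℤ) ≤ (NN n d : ℤ) := by positivity
      have h8 : ((d : ℤ) + 1) * ((n : ℤ) + 2) ≤
          (2 * (n : ℤ) + 1) * ((d : ℤ) + 1 - n * ((2 * n + 2 : ℕ) : ℤ)) := by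
        push_cast
        nlinarith
      have h9 := mul_le_mul_of_nonneg_right h8 h7
      calc _ = ((d : ℤ) + 1) * ((n : ℤ) + 2) * NN n d := by ring
        _ ≤ _ := h9
        _ = (2 * (n : ℤ) + 1) * (((d : ℤ) + 1 - n * ((2 * n + 2 : ℕ) : ℤ)) * NN n d) := by ring
        _ ≤ _ := h6
        _ = _ := by ring
    exact_mod_cast h5
  · obtain ⟨k, rfl⟩ : ∃ k, n = k + 1 := ⟨n - 1, by omega⟩
    rw [Nat.add_sub_cancel]
    have h1 := AR_rec k d
    have h2 : (k + 1) * ((2 * (k + 1) + 1) * NN k d) ≤ (k + 1) * NN (k + 1) d := by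
      rw [h1, ← mul_assoc]
      refine Nat.mul_le_mul_right _ ?_
      nlinarith
    exact Nat.le_of_mul_le_mul_left h2 (by omega)
  · rw [he']
    obtain ⟨k, rfl⟩ : ∃ k, n = k + 2 := ⟨n - 2, by omega⟩
    have h1 := AR_ge k e
    have h2 : k + 2 - 1 = k + 1 := by omega
    rw [h2]
    refine le_trans ?_ h1
    subst he
    nlinarith
end Pool.Agent.War
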