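import Pool.Agent.War.Stmts

/-!
# Simultaneous Waring decompositions (MP_db021c_ag): block lemma, case `n ∣ μ`   (helper37)
-/

set_option autoImplicit false

open Module MvPolynomial

namespace Pool.Agent.War

/-- the double points of the `j`-th form -/
def P0 (q m b r : ℕ) (hm : b * q ≤ m) (j : Fin b) : Finset (Fin m ⊕ Fin r) :=
  Finset.univ.image fun t : Fin q => Sum.inl ⟨j.val * q + t.val, by
    have h1 : (j.val + 1) * q ≤ b * q := Nat.mul_le_mul_right _ j.isLt
    have h2 := t.isLt
    rw [Nat.add_mul, one_mul] at h1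
    omega⟩

theorem card_P0 (q m b r : ℕ) (hm : b * q ≤ m) (j : Fin b) : (P0 q m b r hm j).card = q := by
  unfold P0
  rw [Finset.card_image_of_injective]
  · simp
  · intro t t' h
    have h1 := Sum.inl.inj h
    have h2 := congrArg Fin.val h1
    simp only at h2
    exact Fin.ext (by omega)

theorem C0 (hSC : S_SC) (hAR : S_AR) : S_C0 := by
  intro n d b μ ⟨hn, hd, hb, hbn, hμ, hle⟩ hmod
  obtain ⟨h1, h2, h3⟩ := hAR n d hn hd
  obtain ⟨q, rfl⟩ : ∃ q, μ = n * q := ⟨μ / n, by
    have := Nat.div_add_mod μ n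
    omega⟩
  have hn0 : 0 < n := by omega
  have hm : (b * (n * q) + n - 1) / n = b * q := by
    rw [show b * (n * q) + n - 1 = (n - 1) + n * (b * q) by
      rw [show b * (n * q) = n * (b * q) by ring]; omega, Nat.add_mul_div_left _ _ hn0,
      Nat.div_eq_of_lt (by omega), zero_add]
  unfold Block
  rw [hm]
  set N := NN n d with hN
  -- the hypotheses of the scalar lemma
  have hd2 : 2 * n ≤ d := by
    have : 2 * n ≤ n ^ 3 := by nlinarith [Nat.mul_le_mul hn hn, Nat.mul_le_mul (Nat.mul_le_mul hn hn) (le_refl n)]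
    omega
  have hq : (n + 2) * q ≤ NN n (d - 2 * n) := by
    have k1 : (2 * n + 1) * q ≤ N := by
      refine Nat.le_of_mul_le_mul_left ?_ hn0
      calc n * ((2 * n + 1) * q) = (2 * n + 1) * (n * q) := by ring
        _ ≤ n * N := hle
    have k2 : NN n (d - 2 * n - 2) ≤ NN n (d - 2 * n) := NN_mono_right (by omega)
    refine Nat.le_of_mul_le_mul_left (c := 2 * n + 1) ?_ (by omega)
    calc (2 * n + 1) * ((n + 2) * q) = (n + 2) * ((2 * n + 1) * q) := by ring
      _ ≤ (n + 2) * N := Nat.mul_le_mul_left _ k1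
      _ ≤ (2 * n + 1) * NN n (d - 2 * n - 2) := h1
      _ ≤ (2 * n + 1) * NN n (d - 2 * n) := Nat.mul_le_mul_left _ k2
  set r := N - n * q - b * q with hr
  have hG : Gen ℂ fun z : (Fin (b * q) ⊕ Fin r) → Fin n → ℂ => ∀ j : Fin b,
      finrank ℂ (Dbl n d (P0 q (b * q) b r le_rfl j) z) ≤
        NN n d - (n * (P0 q (b * q) b r le_rfl j).card + Fintype.card (Fin (b * q) ⊕ Fin r)) :=
    Gen.forall fun j => hSC n d _ _ (by omega) (Or.inr ⟨hd2, by rw [card_P0]; exact hq⟩)
  obtain ⟨z, hz⟩ := hG.exists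
  have hz0 : ∀ j : Fin b, Dbl n d (P0 q (b * q) b r le_rfl j) z = ⊥ := by
    intro j
    have := hz j
    rw [card_P0, Fintype.card_sum, Fintype.card_fin, Fintype.card_fin] at this
    rw [← Submodule.finrank_eq_zero (R := ℂ)]
    omega
  refine ⟨fun i => z (Sum.inl i), fun i j => if i.val / q = j.val then 1 else 0,
    fun i => z (Sum.inr i), ?_⟩
  intro f hf hf1 hf2 hf3 j
  have hmem : (⟨f j, mem_Pol.2 (hf j)⟩ : Pol n d) ∈ Dbl n d (P0 q (b * q) b r le_rfl j) z := by
    rw [mem_Dbl]
    refine ⟨?_, ?_⟩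
    · rintro (i | i)
      · exact hf1 i j
      · exact hf3 i j
    · intro i hi k
      unfold P0 at hi
      rw [Finset.mem_image] at hi
      obtain ⟨t, -, rfl⟩ := hi
      have hlt : j.val * q + t.val < b * q := by
        have h1 : (j.val + 1) * q ≤ b * q := Nat.mul_le_mul_right _ j.isLt
        have h2 := t.isLt
        rw [Nat.add_mul, one_mul] at h1
        omega
      have h5 := hf2 ⟨j.val * q + t.val, hlt⟩ k
      have hdiv : (j.val * q + t.val) / q = j.val := by
        have hq0 : 0 < q := lt_of_le_of_lt (Nat.zero_le _) t.isLt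
        rw [add_comm, Nat.add_mul_div_right _ _ hq0, Nat.div_eq_of_lt t.isLt, zero_add]
      rw [Finset.sum_eq_single j] at h5
      · simp only [hdiv, if_true, one_mul] at h5
        exact h5
      · intro j' _ hj'
        simp only [hdiv]
        rw [if_neg (fun h => hj' (Fin.ext h.symm)), zero_mul]
      · intro h
        exact absurd (Finset.mem_univ j) h
  rw [hz0 j, Submodule.mem_bot] at hmem
  exact congrArg Subtype.val hmem

end Pool.Agent.War
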