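import Pool.Agent.War.Stmts

/-!
# Simultaneous Waring decompositions (MP_db021c_ag): block lemma, second case   (helper76)

Section (3) of `Pool/Agent/War/PAPER.md`, `D ≥ 1`, `q + D ≥ n`.
-/

set_option autoImplicit false

open Module MvPolynomial

namespace Pool.Agent.War

theorem Kill.reindexC1 {n d : ℕ} {α β γ α' β' : Type} [Fintype γ] {z : α → Fin n → ℂ}
    {a : α → γ → ℂ} {y : β → Fin n → ℂ} (h : Kill n d z a y) (e : α' ≃ α) (e' : β' ≃ β) :
    Kill n d (z ∘ e) (a ∘ e) (y ∘ e') := by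
  intro f hf h1 h2 h3
  refine h f hf (fun i j => ?_) (fun i k => ?_) (fun i j => ?_)
  · simpa using h1 (e.symm i) j
  · simpa using h2 (e.symm i) k
  · simpa using h3 (e'.symm i) j

/-- conditions on the restrictions to the hyperplane -/
def TrC1 (ν d : ℕ) {α β γ : Type} [Fintype γ] (x : (α ⊕ β → Fin ν → ℂ) × (α → γ → ℂ)) :
    Submodule ℂ (γ → Pol ν d) where
  carrier := {f | (∀ i j, eval (x.1 i) (f j : MvPolynomial (Fin ν) ℂ) = 0) ∧
    ∀ i k, ∑ j, x.2 i j * eval (x.1 (Sum.inl i)) (pderiv k (f j : MvPolynomial (Fin ν) ℂ)) = 0}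
  add_mem' := by
    rintro f g ⟨h1, h2⟩ ⟨k1, k2⟩
    refine ⟨fun i j => ?_, fun i k => ?_⟩
    · rw [Pi.add_apply, Submodule.coe_add, map_add, h1, k1, add_zero]
    · simp only [Pi.add_apply, Submodule.coe_add, map_add, mul_add, Finset.sum_add_distrib,
        h2 i k, k2 i k, add_zero]
  zero_mem' := by simp
  smul_mem' := by
    rintro c f ⟨h1, h2⟩
    refine ⟨fun i j => ?_, fun i k => ?_⟩
    · rw [Pi.smul_apply, Submodule.coe_smul, smul_eval, h1, mul_zero]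
    · have : ∀ j, x.2 i j * eval (x.1 (Sum.inl i)) (pderiv k ((c • f) j : MvPolynomial (Fin ν) ℂ))
          = c * (x.2 i j * eval (x.1 (Sum.inl i)) (pderiv k (f j : MvPolynomial (Fin ν) ℂ))) := by
        intro j
        rw [Pi.smul_apply, Submodule.coe_smul, (pderiv k).map_smul, smul_eval]
        ring
      simp only [this, ← Finset.mul_sum, h2 i k, mul_zero]

theorem mem_TrC1 {ν d : ℕ} {α β γ : Type} [Fintype γ]
    {x : (α ⊕ β → Fin ν → ℂ) × (α → γ → ℂ)} {f : γ → Pol ν d} :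
    f ∈ TrC1 ν d x ↔ (∀ i j, eval (x.1 i) (f j : MvPolynomial (Fin ν) ℂ) = 0) ∧
    ∀ i k, ∑ j, x.2 i j * eval (x.1 (Sum.inl i)) (pderiv k (f j : MvPolynomial (Fin ν) ℂ)) = 0 :=
  Iff.rfl

theorem LP_fstC1 {ν : ℕ} {α β γ : Type} (i : α ⊕ β) (f : MvPolynomial (Fin ν) ℂ) :
    LP (K := ℂ) (X := (α ⊕ β → Fin ν → ℂ) × (α → γ → ℂ)) fun x => eval (x.1 i) f :=
  (LP_eval f).comp_linear ((pt i).comp (LinearMap.fst ℂ (α ⊕ β → Fin ν → ℂ) (α → γ → ℂ)))

theorem LP_sndC1 {ν : ℕ} {α β γ : Type} (i : α) (j : γ) :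
    LP (K := ℂ) (X := (α ⊕ β → Fin ν → ℂ) × (α → γ → ℂ)) fun x => x.2 i j :=
  LP.linear ((LinearMap.proj j : (γ → ℂ) →ₗ[ℂ] ℂ).comp
    ((LinearMap.proj i : (α → γ → ℂ) →ₗ[ℂ] (γ → ℂ)).comp
      (LinearMap.snd ℂ (α ⊕ β → Fin ν → ℂ) (α → γ → ℂ))))

theorem sum_dvC1 {ν d : ℕ} {α β γ : Type} [Fintype γ]
    (x : (α ⊕ β → Fin ν → ℂ) × (α → γ → ℂ)) (i : α) (k : Fin ν) (v : γ → Pol ν d) :
    (∑ j, x.2 i j • (dv ν d k (x.1 (Sum.inl i))).comp
      (LinearMap.proj j : (γ → Pol ν d) →ₗ[ℂ] Pol ν d)) v =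
    ∑ j, x.2 i j * eval (x.1 (Sum.inl i)) (pderiv k (v j : MvPolynomial (Fin ν) ℂ)) := by
  simp only [LinearMap.sum_apply, LinearMap.smul_apply, LinearMap.comp_apply,
    LinearMap.proj_apply, dv_apply, smul_eq_mul]

theorem PK_TrC1 (ν d : ℕ) {α β γ : Type} [Fintype γ] [Fintype α] [Fintype β] :
    PK (K := ℂ) fun x : (α ⊕ β → Fin ν → ℂ) × (α → γ → ℂ) => TrC1 ν d x := by
  refine ⟨((α ⊕ β) × γ) ⊕ (α × Fin ν), inferInstance,
    Sum.elim (fun q x => (ev ν d (x.1 q.1)).comp (LinearMap.proj q.2))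
      (fun q x => ∑ j, x.2 q.1 j • (dv ν d q.2 (x.1 (Sum.inl q.1))).comp (LinearMap.proj j)),
      ?_, ?_⟩
  · rintro (q | q) v
    · have e1 : ∀ x : (α ⊕ β → Fin ν → ℂ) × (α → γ → ℂ),
          (ev ν d (x.1 q.1)).comp (LinearMap.proj q.2 : (γ → Pol ν d) →ₗ[ℂ] Pol ν d) v =
            eval (x.1 q.1) (v q.2 : MvPolynomial (Fin ν) ℂ) := fun x => ev_apply _ _
      change LP fun x : (α ⊕ β → Fin ν → ℂ) × (α → γ → ℂ) =>
        (ev ν d (x.1 q.1)).comp (LinearMap.proj q.2 : (γ → Pol ν d) →ₗ[ℂ] Pol ν d) v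
      simp only [e1]
      exact LP_fstC1 _ _
    · have e1 : ∀ x : (α ⊕ β → Fin ν → ℂ) × (α → γ → ℂ),
          (∑ j, x.2 q.1 j • (dv ν d q.2 (x.1 (Sum.inl q.1))).comp
            (LinearMap.proj j : (γ → Pol ν d) →ₗ[ℂ] Pol ν d)) v =
            ∑ j, x.2 q.1 j * eval (x.1 (Sum.inl q.1))
              (pderiv q.2 (v j : MvPolynomial (Fin ν) ℂ)) := fun x => sum_dvC1 x _ _ _
      change LP fun x : (α ⊕ β → Fin ν → ℂ) × (α → γ → ℂ) =>
        (∑ j, x.2 q.1 j • (dv ν d q.2 (x.1 (Sum.inl q.1))).comp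
            (LinearMap.proj j : (γ → Pol ν d) →ₗ[ℂ] Pol ν d)) v
      simp only [e1]
      exact LP.sum _ fun j _ => (LP_sndC1 _ _).mul (LP_fstC1 _ _)
  · intro x v
    rw [mem_TrC1]
    constructor
    · rintro ⟨k1, k2⟩ (q | q)
      · exact (ev_apply _ _).trans (k1 q.1 q.2)
      · exact (sum_dvC1 x q.1 q.2 v).trans (k2 q.1 q.2)
    · intro h
      exact ⟨fun i j => (ev_apply _ _).symm.trans (h (Sum.inl (i, j))),
        fun i k => (sum_dvC1 x i k v).symm.trans (h (Sum.inr (i, k)))⟩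

/-- value `∑ a_j g_j(z)` at a point of the hyperplane -/
noncomputable def OmC1 (ν d : ℕ) {γ : Type} [Fintype γ] (p : (Fin ν → ℂ) × (γ → ℂ)) :
    (γ → Pol (ν + 1) d) →ₗ[ℂ] ℂ :=
  ∑ j, p.2 j • (ev (ν + 1) d (hp p.1)).comp (LinearMap.proj j)

theorem OmC1_apply {ν d : ℕ} {γ : Type} [Fintype γ] (p : (Fin ν → ℂ) × (γ → ℂ))
    (g : γ → Pol (ν + 1) d) :
    OmC1 ν d p g = ∑ j, p.2 j * eval (hp p.1) (g j : MvPolynomial (Fin (ν + 1)) ℂ) := by
  simp only [OmC1, LinearMap.sum_apply, LinearMap.smul_apply, LinearMap.comp_apply,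
    LinearMap.proj_apply, ev_apply, smul_eq_mul]

theorem PK_OmC1 (ν d : ℕ) {α β γ : Type} [Fintype γ] [Fintype α] [Fintype β] :
    PK (K := ℂ) fun x : (α ⊕ β → Fin ν → ℂ) × (α → γ → ℂ) =>
      ⨅ i : α, LinearMap.ker (OmC1 ν d (x.1 (Sum.inl i), x.2 i)) := by
  refine PK.iInf fun i => PK.one
    (φ := fun x : (α ⊕ β → Fin ν → ℂ) × (α → γ → ℂ) => OmC1 ν d (x.1 (Sum.inl i), x.2 i))
    fun g => ?_
  simp only [OmC1_apply, eval_hp]
  exact LP.sum _ fun j _ => (LP_sndC1 _ _).mul (LP_fstC1 _ _)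

theorem finrank_pi_leC1 {γ V : Type} [Fintype γ] [AddCommGroup V] [Module ℂ V]
    [FiniteDimensional ℂ V] (W : γ → Submodule ℂ V) :
    finrank ℂ (Submodule.pi Set.univ W) ≤ ∑ j, finrank ℂ (W j) := by
  let L : (Submodule.pi Set.univ W) →ₗ[ℂ] (∀ j, W j) := LinearMap.pi fun j =>
    ((LinearMap.proj j).comp (Submodule.subtype _)).codRestrict (W j) fun f => f.2 j trivial
  have hL : Function.Injective L := by
    intro f g h
    apply Subtype.ext
    funext j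
    exact congrArg Subtype.val (congrFun h j)
  have h1 := LinearMap.finrank_le_finrank_of_injective hL
  rwa [Module.finrank_pi_fintype] at h1

theorem eval_X_mulC1 {ν : ℕ} (z : Fin (ν + 1) → ℂ) (g : MvPolynomial (Fin (ν + 1)) ℂ) :
    eval z (X 0 * g) = z 0 * eval z g := by simp

theorem eval_pderiv_X_mulC1 {ν : ℕ} (z : Fin (ν + 1) → ℂ) (g : MvPolynomial (Fin (ν + 1)) ℂ)
    (k : Fin (ν + 1)) : eval z (pderiv k (X 0 * g)) =
      z 0 * eval z (pderiv k g) + (if k = 0 then 1 else 0) * eval z g := by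
  rw [Derivation.leibniz]
  by_cases hk : k = 0
  · subst hk
    simp
  · rw [pderiv_X_of_ne (Ne.symm hk)]
    simp [hk]

theorem Dbl_of_mulXC1 {ν d : ℕ} {I : Type} {Q : Finset I} {z : I → Fin (ν + 1) → ℂ}
    (hz : ∀ i, z i 0 ≠ 0) {g : Pol (ν + 1) d} (h : mulX ν d g ∈ Dbl (ν + 1) (d + 1) Q z) :
    g ∈ Dbl (ν + 1) d Q z := by
  rw [mem_Dbl] at h ⊢
  obtain ⟨h1, h2⟩ := h
  simp only [mulX_coe] at h1 h2
  have k1 : ∀ i, eval (z i) (g : MvPolynomial (Fin (ν + 1)) ℂ) = 0 := fun i => by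
    have := h1 i
    rw [eval_X_mulC1] at this
    exact (mul_eq_zero.1 this).resolve_left (hz i)
  refine ⟨k1, fun i hi k => ?_⟩
  have := h2 i hi k
  rw [eval_pderiv_X_mulC1, k1, mul_zero, add_zero] at this
  exact (mul_eq_zero.1 this).resolve_left (hz i)

theorem exists_mulXC1 {ν d : ℕ} {f : Pol (ν + 1) (d + 1)}
    (h : res ν (f : MvPolynomial (Fin (ν + 1)) ℂ) = 0) : ∃ g : Pol (ν + 1) d, f = mulX ν d g := by
  obtain ⟨g, hg, hfg⟩ := exists_of_res (mem_Pol.1 f.2) h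
  exact ⟨⟨g, mem_Pol.2 hg⟩, Subtype.ext hfg⟩

theorem Dbl_eq_botC1 {n d : ℕ} {I : Type} {P : Finset I} {z : I → Fin n → ℂ} {k : ℕ}
    (h : finrank ℂ (Dbl n d P z) ≤ k) (hk : k = 0) : Dbl n d P z = ⊥ := by
  subst hk
  exact Submodule.finrank_eq_zero.1 (Nat.le_zero.1 h)

/-- trace: generically no nonzero tuple -/
theorem traceC1 (hSC : S_SC) (ν d b u eH : ℕ) (hν : 1 ≤ ν)
    (h1 : u = 0 ∨ (2 * ν ≤ d ∧ (ν + 2) * u ≤ NN ν (d - 2 * ν)))
    (h2 : NN ν d ≤ ν * u + (b * u + eH)) :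
    Gen ℂ fun x : ((Fin b × Fin u) ⊕ Fin eH → Fin ν → ℂ) × (Fin b × Fin u → Fin b → ℂ) =>
      TrC1 ν d x = ⊥ := by
  classical
  let P : Fin b → Finset ((Fin b × Fin u) ⊕ Fin eH) := fun j =>
    Finset.univ.map ⟨fun i : Fin u => Sum.inl (j, i), fun i i' h => by
      simpa using h⟩
  have hP : ∀ j, (P j).card = u := fun j => by simp [P]
  have hcard : Fintype.card ((Fin b × Fin u) ⊕ Fin eH) = b * u + eH := by simp
  obtain ⟨z0, hz0⟩ := (Gen.forall fun j : Fin b =>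
    hSC ν d ((Fin b × Fin u) ⊕ Fin eH) (P j) hν (by rw [hP]; exact h1)).exists
  have hD : ∀ j, Dbl ν d (P j) z0 = ⊥ := fun j =>
    Dbl_eq_botC1 (hz0 j) (by rw [hP, hcard]; omega)
  refine (PK_TrC1 ν d).gen_bot
    (x₀ := (z0, fun q => (Pi.single q.1 1 : Fin b → ℂ))) ?_
  rw [eq_bot_iff]
  intro f hf
  obtain ⟨k1, k2⟩ := mem_TrC1.1 hf
  rw [Submodule.mem_bot]
  funext j
  have : f j ∈ Dbl ν d (P j) z0 := by
    refine mem_Dbl.2 ⟨fun i => k1 i j, fun i hi k => ?_⟩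
    obtain ⟨i', -, rfl⟩ := Finset.mem_map.1 hi
    have := k2 (j, i') k
    change eval (z0 (Sum.inl (j, i'))) (pderiv k (f j : MvPolynomial (Fin ν) ℂ)) = 0
    simpa [Pi.single_apply] using this
  rw [hD, Submodule.mem_bot] at this
  rw [this]
  rfl

theorem C1_core (hSC : S_SC) (ν δ b u r c eH e : ℕ) (hν : 1 ≤ ν) (hc : c ≤ b)
    (h1 : u = 0 ∨ (2 * ν ≤ δ + 2 ∧ (ν + 2) * u ≤ NN ν (δ + 2 - 2 * ν)))
    (h2 : NN ν (δ + 2) ≤ ν * u + (b * u + eH))
    (h3 : 2 * (ν + 1) ≤ δ) (h3' : (ν + 1 + 2) * (r + 1) ≤ NN (ν + 1) (δ - 2 * (ν + 1)))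
    (h4 : NN (ν + 1) (δ + 1) ≤ (ν + 1) * (r + 1) + (b * r + c + e))
    (h5 : NN (ν + 1) δ ≤ (ν + 1) * r + (b * r + c + e))
    (h6 : (ν + 1) * (b - c) ≤ b * u) :
    ∃ (z : (Fin b × Fin u) ⊕ ((Fin b × Fin r) ⊕ Fin c) → Fin (ν + 1) → ℂ)
      (a : (Fin b × Fin u) ⊕ ((Fin b × Fin r) ⊕ Fin c) → Fin b → ℂ)
      (y : Fin eH ⊕ Fin e → Fin (ν + 1) → ℂ), Kill (ν + 1) (δ + 2) z a y := by
  classical
  -- the off points
  let own : (Fin b × Fin r) ⊕ Fin c → Fin b := Sum.elim Prod.fst (Fin.castLE hc)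
  let Q : Fin b → Finset (((Fin b × Fin r) ⊕ Fin c) ⊕ Fin e) := fun j =>
    (Finset.univ.filter fun q => own q = j).map ⟨Sum.inl, Sum.inl_injective⟩
  have hQ : ∀ j : Fin b, (Q j).card = r + if (j : ℕ) < c then 1 else 0 := by
    intro j
    have e1 : (Q j).card = (Finset.univ.filter fun q => own q = j).card := by simp [Q]
    have e2 : ∀ i : Fin b, (∑ _x : Fin r, if i = j then 1 else 0) = if i = j then r else 0 := by
      intro i
      by_cases h : i = j <;> simp [h]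
    rw [e1, Finset.card_filter, Fintype.sum_sum_type, Fintype.sum_prod_type]
    congr 1
    · change (∑ i : Fin b, ∑ _x : Fin r, if i = j then 1 else 0) = r
      rw [Finset.sum_congr rfl fun i _ => e2 i]
      simp
    · change (∑ t : Fin c, if Fin.castLE hc t = j then 1 else 0) = _
      by_cases h : (j : ℕ) < c
      · rw [if_pos h, Finset.sum_eq_single (⟨j, h⟩ : Fin c)]
        · exact if_pos (Fin.ext rfl)
        · intro t _ ht
          rw [if_neg]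
          intro h'
          apply ht
          rw [Fin.ext_iff] at h' ⊢
          simpa using h'
        · simp
      · rw [if_neg h]
        refine Finset.sum_eq_zero fun t _ => if_neg fun h' => h ?_
        rw [Fin.ext_iff] at h'
        simp only [Fin.val_castLE] at h'
        omega
  have hQ1 : ∀ j, (Q j).card ≤ r + 1 := fun j => by rw [hQ]; split_ifs <;> omega
  have hcard : Fintype.card (((Fin b × Fin r) ⊕ Fin c) ⊕ Fin e) = b * r + c + e := by simp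
  have hmono : ∀ j, (ν + 1 + 2) * (Q j).card ≤ NN (ν + 1) (δ - 2 * (ν + 1)) := fun j =>
    (Nat.mul_le_mul_left _ (hQ1 j)).trans h3'
  obtain ⟨z', ⟨hA, hB⟩, hC⟩ := (((Gen.forall fun j : Fin b =>
    hSC (ν + 1) (δ + 1) (((Fin b × Fin r) ⊕ Fin c) ⊕ Fin e) (Q j) (by omega)
      (Or.inr ⟨by omega, (hmono j).trans (NN_mono_right (by omega))⟩)).and
    (Gen.forall fun j : Fin b =>
      hSC (ν + 1) δ (((Fin b × Fin r) ⊕ Fin c) ⊕ Fin e) (Q j) (by omega)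
      (Or.inr ⟨h3, hmono j⟩))).and
    (Gen.forall fun i : ((Fin b × Fin r) ⊕ Fin c) ⊕ Fin e =>
      Gen.ne (K := ℂ) (F := fun z : ((Fin b × Fin r) ⊕ Fin c) ⊕ Fin e → Fin (ν + 1) → ℂ => z i 0)
        ((LP_coord (0 : Fin (ν + 1))).comp_linear (pt i)) (fun _ _ => 1) one_ne_zero)).exists
  have hB' : ∀ j, Dbl (ν + 1) δ (Q j) z' = ⊥ := fun j => by
    refine Dbl_eq_botC1 (hB j) ?_
    rw [hcard]
    have : (ν + 1) * r ≤ (ν + 1) * (Q j).card := Nat.mul_le_mul_left _ (by rw [hQ]; omega)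
    omega
  -- the residual space
  let V : Submodule ℂ (Fin b → Pol (ν + 1) (δ + 1)) :=
    Submodule.pi Set.univ fun j => Dbl (ν + 1) (δ + 1) (Q j) z'
  have hVmem : ∀ g, g ∈ V ↔ ∀ j, g j ∈ Dbl (ν + 1) (δ + 1) (Q j) z' := fun g => by
    simp [V, Submodule.mem_pi]
  have hV : finrank ℂ V ≤ b * u := by
    refine (finrank_pi_leC1 _).trans ?_
    have e1 : ∀ j : Fin b, finrank ℂ (Dbl (ν + 1) (δ + 1) (Q j) z') ≤
        if (j : ℕ) < c then 0 else ν + 1 := by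
      intro j
      refine (hA j).trans ?_
      rw [hcard, hQ]
      split_ifs with h
      · omega
      · rw [add_zero]
        have : (ν + 1) * (r + 1) = (ν + 1) * r + (ν + 1) := by ring
        omega
    refine (Finset.sum_le_sum fun j _ => e1 j).trans ?_
    have e2 : (∑ j : Fin b, if (j : ℕ) < c then 0 else ν + 1) = (ν + 1) * (b - c) := by
      rw [Fin.sum_univ_eq_sum_range (fun j => if j < c then 0 else ν + 1) b,
        Finset.sum_ite, Finset.sum_const_zero, zero_add, Finset.sum_const, smul_eq_mul, mul_comm]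
      congr 1
      have : (Finset.range b).filter (fun x => ¬ x < c) = Finset.Ico c b := by
        ext x
        simp only [Finset.mem_filter, Finset.mem_range, Finset.mem_Ico]
        omega
      rw [this, Nat.card_Ico]
    rw [e2]
    exact h6
  -- partial points on the hyperplane
  have hred : ∀ w ∈ V, w ∉ (⊥ : Submodule ℂ (Fin b → Pol (ν + 1) (δ + 1))) →
      ∃ y : (Fin ν → ℂ) × (Fin b → ℂ), OmC1 ν (δ + 1) y w ≠ 0 := by
    intro w hw hw0
    by_contra hcon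
    push Not at hcon
    apply hw0
    rw [Submodule.mem_bot]
    funext j
    have e1 : ∀ p : Fin ν → ℂ, eval p (res ν (w j : MvPolynomial (Fin (ν + 1)) ℂ)) = 0 := by
      intro p
      have := hcon (p, Pi.single j 1)
      rw [OmC1_apply] at this
      simpa [Pi.single_apply, eval_hp] using this
    have e2 : res ν (w j : MvPolynomial (Fin (ν + 1)) ℂ) = 0 :=
      MvPolynomial.funext fun p => by rw [e1, map_zero]
    obtain ⟨g, hg⟩ := exists_mulXC1 e2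
    have e3 : g ∈ Dbl (ν + 1) δ (Q j) z' :=
      Dbl_of_mulXC1 hC (by rw [← hg]; exact (hVmem w).1 hw j)
    rw [hB', Submodule.mem_bot] at e3
    rw [hg, e3, map_zero]
    rfl
  obtain ⟨yy, hyy⟩ := red (OmC1 ν (δ + 1)) V ⊥ hred (b * u)
  have hyy' : V ⊓ ⨅ i, LinearMap.ker (OmC1 ν (δ + 1) (yy i)) = ⊥ := by
    apply Submodule.finrank_eq_zero.1
    have : finrank ℂ (⊥ : Submodule ℂ (Fin b → Pol (ν + 1) (δ + 1))) = 0 := finrank_bot _ _
    rw [this] at hyy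
    omega
  have hres : Gen ℂ fun x : ((Fin b × Fin u) ⊕ Fin eH → Fin ν → ℂ) × (Fin b × Fin u → Fin b → ℂ) =>
      (⨅ i : Fin b × Fin u, LinearMap.ker (OmC1 ν (δ + 1) (x.1 (Sum.inl i), x.2 i))).comap
        V.subtype = ⊥ := by
    have hPK := PK_OmC1 ν (δ + 1) (α := Fin b × Fin u) (β := Fin eH) (γ := Fin b)
    refine (PK.comap (V' := V) hPK V.subtype).gen_bot
      (x₀ := (Sum.elim (fun q => (yy (finProdFinEquiv q)).1) (fun _ => 0),
        fun q => (yy (finProdFinEquiv q)).2)) ?_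
    rw [eq_bot_iff]
    intro v hv
    rw [Submodule.mem_comap, Submodule.mem_iInf] at hv
    have : (v : Fin b → Pol (ν + 1) (δ + 1)) ∈
        V ⊓ ⨅ i, LinearMap.ker (OmC1 ν (δ + 1) (yy i)) := by
      refine ⟨v.2, (Submodule.mem_iInf _).2 fun i => ?_⟩
      have := hv (finProdFinEquiv.symm i)
      simp only [Sum.elim_inl, Equiv.apply_symm_apply] at this
      exact this
    rw [hyy', Submodule.mem_bot] at this
    rw [Submodule.mem_bot]
    exact Subtype.ext this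
  obtain ⟨x, hx1, hx2⟩ := ((traceC1 hSC ν (δ + 2) b u eH hν h1 h2).and hres).exists
  refine ⟨Sum.elim (fun i => hp (x.1 (Sum.inl i))) (fun i => z' (Sum.inl i)),
    Sum.elim x.2 (fun i => Pi.single (own i) 1),
    Sum.elim (fun i => hp (x.1 (Sum.inr i))) (fun i => z' (Sum.inr i)), ?_⟩
  intro f hf k1 k2 k3
  -- trace
  have t1 : (fun j => resL ν (δ + 2) ⟨f j, mem_Pol.2 (hf j)⟩) ∈ TrC1 ν (δ + 2) x := by
    refine mem_TrC1.2 ⟨?_, fun i k => ?_⟩
    · rintro (i | i) j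
      · have := k1 (Sum.inl i) j
        rw [Sum.elim_inl, eval_hp] at this
        exact this
      · have := k3 (Sum.inl i) j
        rw [Sum.elim_inl, eval_hp] at this
        exact this
    · have := k2 (Sum.inl i) k.succ
      simp only [Sum.elim_inl, eval_hp_pderiv] at this
      exact this
  rw [hx1, Submodule.mem_bot] at t1
  have t2 : ∀ j, ∃ g : Pol (ν + 1) (δ + 1), (⟨f j, mem_Pol.2 (hf j)⟩ : Pol (ν + 1) (δ + 2)) =
      mulX ν (δ + 1) g := fun j => by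
    refine exists_mulXC1 ?_
    have := congrArg Subtype.val (congrFun t1 j)
    simpa using this
  choose g hg using t2
  have hg' : ∀ j, f j = X 0 * (g j : MvPolynomial (Fin (ν + 1)) ℂ) := fun j =>
    congrArg Subtype.val (hg j)
  have t3 : g ∈ V := by
    rw [hVmem]
    intro j
    refine Dbl_of_mulXC1 hC ?_
    rw [← hg j]
    refine mem_Dbl.2 ⟨?_, fun i hi k => ?_⟩
    · rintro (i | i)
      · exact k1 (Sum.inr i) j
      · exact k3 (Sum.inr i) j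
    · obtain ⟨q, hq, rfl⟩ := Finset.mem_map.1 hi
      have hq' : own q = j := (Finset.mem_filter.1 hq).2
      have := k2 (Sum.inr q) k
      simp only [Sum.elim_inr, hq'] at this
      simpa [Pi.single_apply] using this
  have t4 : (⟨g, t3⟩ : V) ∈
      (⨅ i : Fin b × Fin u, LinearMap.ker (OmC1 ν (δ + 1) (x.1 (Sum.inl i), x.2 i))).comap
        V.subtype := by
    rw [Submodule.mem_comap, Submodule.mem_iInf]
    intro i
    rw [LinearMap.mem_ker, Submodule.subtype_apply, OmC1_apply]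
    have := k2 (Sum.inl i) 0
    simp only [Sum.elim_inl, hg', eval_pderiv_X_mulC1, hp_zero, zero_mul, zero_add,
      if_true, one_mul] at this
    exact this
  rw [hx2, Submodule.mem_bot] at t4
  intro j
  have : g j = 0 := congrFun (congrArg Subtype.val t4) j
  rw [hg', this]
  simp

theorem arith1C1 {ν b q r u c D μ N NH N1 N2 NH1 : ℕ} (hμq : (ν + 1) * q + D = μ)
    (hu : u + D = ν + 1) (hr : r + u = q) (hc1 : c ≤ b) (hc2 : c ≤ D) (hbn : b ≤ ν + 1)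
    (hc3 : b * D ≤ (ν + 1) * c) (hμ : (2 * (ν + 1) + 1) * μ ≤ (ν + 1) * N)
    (a2 : (2 * (ν + 1) + 1) * NH ≤ N) (hNs : N = NH + N1) (hNs' : N1 = NH1 + N2)
    (hb4 : 2 * (ν + 1) ^ 2 ≤ NH1) (hb5 : 2 * (ν + 1) ^ 2 ≤ NH) :
    ∃ eH e, NH ≤ ν * u + (b * u + eH) ∧ e + eH + (b * q + c) + μ = N ∧
      N1 ≤ (ν + 1) * (r + 1) + (b * r + c + e) ∧ N2 ≤ (ν + 1) * r + (b * r + c + e) ∧
      (ν + 1) * (b - c) ≤ b * u := by
  have hub : (ν + b) * u ≤ 2 * (ν + 1) ^ 2 := by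
    calc (ν + b) * u ≤ (ν + (ν + 1)) * (ν + 1) := Nat.mul_le_mul (by omega) (by omega)
      _ ≤ 2 * (ν + 1) ^ 2 := by nlinarith
  have hsq : ν + 1 ≤ 2 * (ν + 1) ^ 2 := by nlinarith
  have hmu2 : 2 * μ + NH ≤ N := by
    have : (2 * (ν + 1) + 1) * (2 * μ + NH) ≤ (2 * (ν + 1) + 1) * N := by
      calc (2 * (ν + 1) + 1) * (2 * μ + NH) =
          2 * ((2 * (ν + 1) + 1) * μ) + (2 * (ν + 1) + 1) * NH := by ring
        _ ≤ 2 * ((ν + 1) * N) + N := Nat.add_le_add (Nat.mul_le_mul_left 2 hμ) a2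
        _ = (2 * (ν + 1) + 1) * N := by ring
    exact Nat.le_of_mul_le_mul_left this (by omega)
  have hbq : b * q ≤ (ν + 1) * q := Nat.mul_le_mul_right _ hbn
  have hbr : b * q = b * r + b * u := by rw [← hr]; ring
  have hnr : (ν + 1) * q = (ν + 1) * r + (ν + 1) * u := by rw [← hr]; ring
  have hνbu : (ν + b) * u = ν * u + b * u := by ring
  have hνu : (ν + 1) * u = ν * u + u := by ring
  have hr1 : (ν + 1) * (r + 1) = (ν + 1) * r + (ν + 1) := by ring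
  refine ⟨NH - (ν + b) * u, N - (NH - (ν + b) * u + (b * q + c) + μ), by omega, by omega,
    by omega, by omega, ?_⟩
  have k2 : (ν + 1) * c + (ν + 1) * (b - c) = b * D + b * u := by
    rw [← mul_add, Nat.add_sub_cancel' hc1, ← mul_add, add_comm D u, hu, mul_comm]
  omega

theorem arith2C1 {ν q D μ N M : ℕ} (hμq : (ν + 1) * q + D = μ)
    (hμ : (2 * (ν + 1) + 1) * μ ≤ (ν + 1) * N)
    (a1 : (ν + 1 + 2) * N ≤ (2 * (ν + 1) + 1) * M) : (ν + 1 + 2) * q ≤ M := by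
  have k1 : (2 * (ν + 1) + 1) * q ≤ N := by
    refine le_of_mul_le_mul_left (a := ν + 1) ?_ (Nat.succ_pos ν)
    calc (ν + 1) * ((2 * (ν + 1) + 1) * q) = (2 * (ν + 1) + 1) * ((ν + 1) * q) := by ring
      _ ≤ (2 * (ν + 1) + 1) * μ := Nat.mul_le_mul_left _ (by omega)
      _ ≤ _ := hμ
  refine le_of_mul_le_mul_left (a := 2 * (ν + 1) + 1) ?_ (by omega)
  calc (2 * (ν + 1) + 1) * ((ν + 1 + 2) * q) = (ν + 1 + 2) * ((2 * (ν + 1) + 1) * q) := by ring
    _ ≤ (ν + 1 + 2) * N := Nat.mul_le_mul_left _ k1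
    _ ≤ _ := a1

theorem arith3C1 {ν b D : ℕ} (hDlt : D < ν + 1) (hbn : b ≤ ν + 1) :
    (b * D + ν) / (ν + 1) ≤ b ∧ (b * D + ν) / (ν + 1) ≤ D ∧
      b * D ≤ (ν + 1) * ((b * D + ν) / (ν + 1)) := by
  refine ⟨?_, ?_, ?_⟩
  · rw [← Nat.lt_succ_iff, Nat.div_lt_iff_lt_mul (Nat.succ_pos ν)]
    have : b * D ≤ b * ν := Nat.mul_le_mul_left _ (by omega)
    nlinarith
  · rw [← Nat.lt_succ_iff, Nat.div_lt_iff_lt_mul (Nat.succ_pos ν)]
    have : b * D ≤ (ν + 1) * D := Nat.mul_le_mul_right _ hbn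
    nlinarith
  · have h1 := Nat.div_add_mod (b * D + ν) (ν + 1)
    have h2 : (b * D + ν) % (ν + 1) < ν + 1 := Nat.mod_lt _ (by omega)
    omega

theorem arith4C1 {ν b q D μ : ℕ} (hμq : (ν + 1) * q + D = μ) :
    (b * μ + (ν + 1) - 1) / (ν + 1) = b * q + (b * D + ν) / (ν + 1) := by
  have e1 : b * μ = (ν + 1) * (b * q) + b * D := by rw [← hμq]; ring
  have e2 : b * μ + (ν + 1) - 1 = b * D + ν + (ν + 1) * (b * q) := by omega
  rw [e2, Nat.add_mul_div_left _ _ (Nat.succ_pos ν), add_comm]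

/-- (3), second case -/
theorem C1 (hSC : S_SC) (hAR : S_AR) : S_C1 := by
  rintro n d b μ ⟨hn, hd, hb1, hbn, hnμ, hμ⟩ hD hq
  obtain ⟨ν, rfl⟩ : ∃ ν, n = ν + 1 := ⟨n - 1, by omega⟩
  obtain ⟨δ, rfl⟩ : ∃ δ, d = δ + 2 := ⟨d - 2, by omega⟩
  obtain ⟨a1, a2, a3⟩ := hAR (ν + 1) (δ + 2) hn hd
  have hdeg : 2 * (ν + 1) ≤ δ := by
    have h1 : 2 * 2 ≤ (ν + 1) * (ν + 1) := Nat.mul_le_mul hn hn
    have h2 : (ν + 1) * (2 * 2) ≤ (ν + 1) * ((ν + 1) * (ν + 1)) := Nat.mul_le_mul_left _ h1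
    have h3 : (ν + 1) ^ 3 = (ν + 1) * ((ν + 1) * (ν + 1)) := by ring
    omega
  rw [Nat.add_sub_cancel] at a2 a3
  have e1 : δ + 2 - 2 * (ν + 1) - 2 = δ - 2 * (ν + 1) := by omega
  rw [e1] at a1 a3
  have hμq : (ν + 1) * (μ / (ν + 1)) + μ % (ν + 1) = μ := Nat.div_add_mod μ (ν + 1)
  have hDlt : μ % (ν + 1) < ν + 1 := Nat.mod_lt _ (by omega)
  generalize μ / (ν + 1) = q at hq hμq
  generalize μ % (ν + 1) = D at hq hD hμq hDlt
  obtain ⟨u, hu⟩ : ∃ u, u + D = ν + 1 := ⟨ν + 1 - D, by omega⟩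
  obtain ⟨r, hr⟩ : ∃ r, r + u = q := ⟨q - u, by omega⟩
  obtain ⟨hc1, hc2, hc3⟩ := arith3C1 (b := b) hDlt hbn
  have hm := arith4C1 (b := b) hμq
  generalize (b * D + ν) / (ν + 1) = c at hc1 hc2 hc3 hm
  obtain ⟨eH, e, g1, g2, g3, g4, g5⟩ := arith1C1 hμq hu hr hc1 hc2 hbn hc3 hμ a2
    (NN_succ ν (δ + 1)) (NN_succ ν δ) (a3.trans (NN_mono_right (by omega)))
    (a3.trans (NN_mono_right (by omega)))
  have hqN := arith2C1 hμq hμ a1
  have huν : (ν + 2) * u ≤ 2 * (ν + 1) ^ 2 := by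
    have : u ≤ ν + 1 := by omega
    calc (ν + 2) * u ≤ (ν + 2) * (ν + 1) := Nat.mul_le_mul_left _ this
      _ ≤ 2 * (ν + 1) ^ 2 := by nlinarith
  have hr1 : (ν + 1 + 2) * (r + 1) ≤ (ν + 1 + 2) * q := Nat.mul_le_mul_left _ (by omega)
  obtain ⟨z, a, y, hK⟩ := C1_core hSC ν δ b u r c eH e (by omega) hc1
    (Or.inr ⟨by omega, (huν.trans a3).trans (NN_mono_right (by omega))⟩)
    g1 hdeg (hr1.trans hqN) g3 g4 g5
  have hbr : b * q = b * r + b * u := by rw [← hr]; ring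
  have hcα : Fintype.card ((Fin b × Fin u) ⊕ ((Fin b × Fin r) ⊕ Fin c)) =
      (b * μ + (ν + 1) - 1) / (ν + 1) := by
    simp only [Fintype.card_sum, Fintype.card_prod, Fintype.card_fin]
    rw [hm]
    omega
  have hcβ : Fintype.card (Fin eH ⊕ Fin e) =
      NN (ν + 1) (δ + 2) - μ - (b * μ + (ν + 1) - 1) / (ν + 1) := by
    simp only [Fintype.card_sum, Fintype.card_fin]
    rw [hm]
    clear hcα g1 g3 g4 g5 hqN a1 a2 a3 hμ
    generalize NN (ν + 1) (δ + 2) = N at g2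
    omega
  exact ⟨_, _, _, hK.reindexC1 (Fintype.equivFinOfCardEq hcα).symm
    (Fintype.equivFinOfCardEq hcβ).symm⟩

end Pool.Agent.War
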