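import Pool.Agent.War.Stmts

/-!
# Simultaneous Waring decompositions (MP_db021c_ag): block lemma, third case   (helper31)

`C2 : S_X → S_C2`: graph configuration on the moment curve, kernel argument and counting.
-/

set_option autoImplicit false
open Module MvPolynomial

namespace Pool.Agent.War

/-- restriction of a polynomial to the line `z + t (w - z)` -/
noncomputable def lin {n : ℕ} (z w : Fin n → ℂ) (f : MvPolynomial (Fin n) ℂ) : Polynomial ℂ :=
  aeval (fun k => Polynomial.C (z k) + Polynomial.C (w k - z k) * Polynomial.X) f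

theorem lin_C {n : ℕ} (z w : Fin n → ℂ) (a : ℂ) : lin z w (C a) = Polynomial.C a := by
  simp [lin]

theorem lin_add {n : ℕ} (z w : Fin n → ℂ) (p q : MvPolynomial (Fin n) ℂ) :
    lin z w (p + q) = lin z w p + lin z w q := by
  simp [lin]

theorem lin_mul {n : ℕ} (z w : Fin n → ℂ) (p q : MvPolynomial (Fin n) ℂ) :
    lin z w (p * q) = lin z w p * lin z w q := by
  simp [lin]

theorem lin_X {n : ℕ} (z w : Fin n → ℂ) (k : Fin n) :
    lin z w (X k) = Polynomial.C (z k) + Polynomial.C (w k - z k) * Polynomial.X := by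
  simp [lin]

theorem lin_eval {n : ℕ} (z w : Fin n → ℂ) (f : MvPolynomial (Fin n) ℂ) (t : ℂ) :
    (lin z w f).eval t = eval (fun k => z k + (w k - z k) * t) f := by
  induction f using MvPolynomial.induction_on with
  | C a => rw [lin_C, Polynomial.eval_C, eval_C]
  | add p q hp hq => rw [lin_add, Polynomial.eval_add, hp, hq, map_add]
  | mul_X p k hp =>
    rw [lin_mul, Polynomial.eval_mul, hp, lin_X, map_mul, eval_X, Polynomial.eval_add,
      Polynomial.eval_mul, Polynomial.eval_C, Polynomial.eval_C, Polynomial.eval_X]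

theorem lin_natDegree {n d : ℕ} (z w : Fin n → ℂ) {f : MvPolynomial (Fin n) ℂ}
    (hf : f.totalDegree ≤ d) : (lin z w f).natDegree ≤ d := by
  have h := aeval_natDegree_le f hf
    (fun k => Polynomial.C (z k) + Polynomial.C (w k - z k) * Polynomial.X) (n := 1)
    (fun k => by
      refine (Polynomial.natDegree_add_le _ _).trans (max_le ?_ ?_)
      · rw [Polynomial.natDegree_C]; exact Nat.zero_le _
      · exact (Polynomial.natDegree_C_mul_le _ _).trans Polynomial.natDegree_X_le)
  rwa [mul_one] at h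

theorem lin_derivative {n : ℕ} (z w : Fin n → ℂ) (f : MvPolynomial (Fin n) ℂ) :
    (lin z w f).derivative = ∑ k, Polynomial.C (w k - z k) * lin z w (pderiv k f) := by
  induction f using MvPolynomial.induction_on with
  | C a =>
    rw [lin_C, Polynomial.derivative_C]
    symm
    refine Finset.sum_eq_zero fun k _ => ?_
    rw [pderiv_C, show (0 : MvPolynomial (Fin n) ℂ) = C 0 by rw [C_0], lin_C, Polynomial.C_0,
      mul_zero]
  | add p q hp hq =>
    rw [lin_add, Polynomial.derivative_add, hp, hq, ← Finset.sum_add_distrib]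
    refine Finset.sum_congr rfl fun k _ => ?_
    rw [map_add, lin_add, mul_add]
  | mul_X p k hp =>
    have h0 : (lin z w (X k)).derivative = Polynomial.C (w k - z k) := by
      rw [lin_X, Polynomial.derivative_add, Polynomial.derivative_C, zero_add,
        Polynomial.derivative_C_mul, Polynomial.derivative_X, mul_one]
    rw [lin_mul, Polynomial.derivative_mul, hp, h0]
    have h1 : ∀ j, lin z w (pderiv j (p * X k)) =
        lin z w (pderiv j p) * lin z w (X k) + (if j = k then lin z w p else 0) := by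
      intro j
      rw [Derivation.leibniz, smul_eq_mul, smul_eq_mul, lin_add, lin_mul, lin_mul]
      by_cases hj : j = k
      · subst hj
        rw [if_pos rfl, pderiv_X_self, show (1 : MvPolynomial (Fin n) ℂ) = C 1 by rw [C_1], lin_C,
          Polynomial.C_1, mul_one]
        ring
      · rw [if_neg hj, pderiv_X_of_ne (Ne.symm hj),
          show (0 : MvPolynomial (Fin n) ℂ) = C 0 by rw [C_0], lin_C, Polynomial.C_0, mul_zero]
        ring
    simp only [h1, mul_add, Finset.sum_add_distrib]
    congr 1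
    · rw [Finset.sum_mul]
      refine Finset.sum_congr rfl fun j _ => ?_
      ring
    · rw [Finset.sum_eq_single k]
      · rw [if_pos rfl]; ring
      · intro j _ hj
        rw [if_neg hj, mul_zero]
      · intro h; exact absurd (Finset.mem_univ k) h

theorem lin_derivative_eval {n : ℕ} (z w : Fin n → ℂ) (f : MvPolynomial (Fin n) ℂ) :
    (lin z w f).derivative.eval 0 = ∑ k, (w k - z k) * eval z (pderiv k f) := by
  rw [lin_derivative, Polynomial.eval_finsetSum]
  refine Finset.sum_congr rfl fun k _ => ?_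
  rw [Polynomial.eval_mul, Polynomial.eval_C, lin_eval]
  have : (fun k => z k + (w k - z k) * 0) = z := by
    funext j
    ring
  rw [this]

/-- the polynomial `X ∏ (X - τ l)` -/
noncomputable def PP {r : ℕ} (τ : Fin r → ℂ) : Polynomial ℂ :=
  Polynomial.X * ∏ l, (Polynomial.X - Polynomial.C (τ l))

theorem QQ_monic {r : ℕ} (τ : Fin r → ℂ) :
    (∏ l, (Polynomial.X - Polynomial.C (τ l))).Monic :=
  Polynomial.monic_prod_of_monic _ _ fun _ _ => Polynomial.monic_X_sub_C _

theorem PP_monic {r : ℕ} (τ : Fin r → ℂ) : (PP τ).Monic :=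
  Polynomial.monic_X.mul (QQ_monic τ)

theorem QQ_natDegree {r : ℕ} (τ : Fin r → ℂ) :
    (∏ l, (Polynomial.X - Polynomial.C (τ l))).natDegree = r := by
  rw [Polynomial.natDegree_prod_of_monic _ _ fun _ _ => Polynomial.monic_X_sub_C _]
  simp only [Polynomial.natDegree_X_sub_C, Finset.sum_const, Finset.card_univ, Fintype.card_fin,
    smul_eq_mul, mul_one]

theorem PP_natDegree {r : ℕ} (τ : Fin r → ℂ) : (PP τ).natDegree = r + 1 := by
  unfold PP
  rw [Polynomial.Monic.natDegree_mul Polynomial.monic_X (QQ_monic τ),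
    Polynomial.natDegree_X, QQ_natDegree, add_comm]

theorem PP_eval {r : ℕ} (τ : Fin r → ℂ) (t : ℂ) : (PP τ).eval t = t * ∏ l, (t - τ l) := by
  unfold PP
  rw [Polynomial.eval_mul, Polynomial.eval_X, Polynomial.eval_prod]
  simp only [Polynomial.eval_sub, Polynomial.eval_X, Polynomial.eval_C]

theorem PP_unique {r : ℕ} {τ : Fin r → ℂ} (hτ : Function.Injective τ) (h0 : ∀ l, τ l ≠ 0)
    {g : Polynomial ℂ} (hg : g.natDegree ≤ r + 1) (g0 : g.eval 0 = 0)
    (gτ : ∀ l, g.eval (τ l) = 0) : ∃ v : ℂ, g = Polynomial.C v * PP τ := by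
  refine ⟨g.coeff (r + 1), ?_⟩
  have h2 : (g - Polynomial.C (g.coeff (r + 1)) * PP τ).natDegree ≤ r + 1 := by
    refine (Polynomial.natDegree_sub_le _ _).trans (max_le hg ?_)
    exact (Polynomial.natDegree_C_mul_le _ _).trans (PP_natDegree τ).le
  have h3 : (g - Polynomial.C (g.coeff (r + 1)) * PP τ).coeff (r + 1) = 0 := by
    have h4 := (PP_monic τ).coeff_natDegree
    rw [PP_natDegree] at h4
    rw [Polynomial.coeff_sub, Polynomial.coeff_C_mul, h4, mul_one, sub_self]
  have h1 : g - Polynomial.C (g.coeff (r + 1)) * PP τ = 0 ∨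
      (g - Polynomial.C (g.coeff (r + 1)) * PP τ).natDegree < r + 1 := by
    rcases Nat.lt_or_ge (g - Polynomial.C (g.coeff (r + 1)) * PP τ).natDegree (r + 1) with h4 | h4
    · exact Or.inr h4
    · have h5 := le_antisymm h2 h4
      left
      rw [← Polynomial.leadingCoeff_eq_zero, Polynomial.leadingCoeff, h5]
      exact h3
  rcases h1 with h1 | h1
  · exact sub_eq_zero.1 h1
  · refine sub_eq_zero.1 (Polynomial.eq_zero_of_natDegree_lt_card_of_eval_eq_zero _
      (f := fun o : Option (Fin r) => o.elim 0 τ) ?_ ?_ ?_)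
    · rintro (_ | i) (_ | j) hij
      · rfl
      · exact absurd hij.symm (h0 j)
      · exact absurd hij (h0 i)
      · exact congrArg some (hτ hij)
    · rintro (_ | i)
      · rw [Polynomial.eval_sub, Polynomial.eval_mul, PP_eval]
        change Polynomial.eval 0 g - _ * (0 * _) = 0
        rw [g0, zero_mul, mul_zero, sub_zero]
      · rw [Polynomial.eval_sub, Polynomial.eval_mul, PP_eval]
        change Polynomial.eval (τ i) g - _ * (τ i * ∏ l, (τ i - τ l)) = 0
        rw [gτ, Finset.prod_eq_zero (Finset.mem_univ i) (sub_self _), mul_zero, mul_zero, sub_zero]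
    · rw [Fintype.card_option, Fintype.card_fin]
      exact h1

theorem PP_deriv {r : ℕ} (τ : Fin r → ℂ) : (PP τ).derivative.eval 0 = ∏ l, (0 - τ l) := by
  unfold PP
  rw [Polynomial.derivative_mul, Polynomial.derivative_X, Polynomial.eval_add,
    Polynomial.eval_mul, Polynomial.eval_mul, Polynomial.eval_X, zero_mul, add_zero,
    Polynomial.eval_one, one_mul, Polynomial.eval_prod]
  simp only [Polynomial.eval_sub, Polynomial.eval_X, Polynomial.eval_C]

/-! ### general simple points -/

/-- a subspace of dimension `≤ r` is killed by `r` points -/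
theorem kill_points {n d : ℕ} (W : Submodule ℂ (Pol n d)) (r : ℕ) (h : finrank ℂ W ≤ r) :
    ∃ y : Fin r → Fin n → ℂ, ∀ f ∈ W, (∀ i, eval (y i) (f : MvPolynomial (Fin n) ℂ) = 0) →
      f = 0 := by
  obtain ⟨y, hy⟩ := red (fun y : Fin n → ℂ => ev n d y) W ⊥ (fun w _ hw => by
    by_contra hc
    push Not at hc
    apply hw
    rw [Submodule.mem_bot]
    apply Subtype.ext
    refine MvPolynomial.funext fun x => ?_
    have := hc x
    rw [ev_apply] at this
    rw [this]
    rfl) r
  refine ⟨y, fun f hf hf0 => ?_⟩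
  rw [finrank_bot, Nat.sub_eq_zero_of_le h, max_self, Nat.le_zero,
    Submodule.finrank_eq_zero] at hy
  have h3 : f ∈ W ⊓ ⨅ i, LinearMap.ker (ev n d (y i)) := by
    refine ⟨hf, (Submodule.mem_iInf _).2 fun i => ?_⟩
    rw [LinearMap.mem_ker, ev_apply]
    exact hf0 i
  rw [hy] at h3
  exact (Submodule.mem_bot ℂ).1 h3

/-! ### an edge of the graph -/

theorem edge {n b r : ℕ} (z w : Fin n → ℂ) (τ : Fin r → ℂ) (hτ : Function.Injective τ)
    (h01 : ∀ l, τ l ≠ 0 ∧ τ l ≠ 1) (f : Fin b → MvPolynomial (Fin n) ℂ)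
    (hf : ∀ j, (f j).totalDegree ≤ r + 1) (hz : ∀ j, eval z (f j) = 0)
    (hl : ∀ l j, eval (fun k => (1 - τ l) * z k + τ l * w k) (f j) = 0) (a : Fin b → ℂ)
    (ha : ∀ k, ∑ j, a j * eval z (pderiv k (f j)) = 0) : ∑ j, a j * eval w (f j) = 0 := by
  have h1 : ∀ j, ∃ v : ℂ, lin z w (f j) = Polynomial.C v * PP τ := by
    intro j
    refine PP_unique hτ (fun l => (h01 l).1) (lin_natDegree z w (hf j)) ?_ fun l => ?_
    · rw [lin_eval]
      have : (fun k => z k + (w k - z k) * 0) = z := by funext k; ring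
      rw [this]
      exact hz j
    · rw [lin_eval]
      have : (fun k => z k + (w k - z k) * τ l) = fun k => (1 - τ l) * z k + τ l * w k := by
        funext k; ring
      rw [this]
      exact hl l j
  choose v hv using h1
  have h2 : ∀ j, eval w (f j) = v j * ∏ l, (1 - τ l) := by
    intro j
    have h3 := lin_eval z w (f j) 1
    have : (fun k => z k + (w k - z k) * 1) = w := by funext k; ring
    rw [this, hv, Polynomial.eval_mul, Polynomial.eval_C, PP_eval, one_mul] at h3
    exact h3.symm
  have h4 : ∀ j, ∑ k, (w k - z k) * eval z (pderiv k (f j)) = v j * ∏ l, (0 - τ l) := by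
    intro j
    rw [← lin_derivative_eval, hv, Polynomial.derivative_C_mul, Polynomial.eval_mul,
      Polynomial.eval_C, PP_deriv]
  have h5 : (∑ j, a j * v j) * ∏ l, (0 - τ l) = 0 := by
    rw [Finset.sum_mul]
    calc ∑ j, a j * v j * ∏ l, (0 - τ l)
        = ∑ j, ∑ k, (w k - z k) * (a j * eval z (pderiv k (f j))) := by
          refine Finset.sum_congr rfl fun j _ => ?_
          rw [mul_assoc, ← h4, Finset.mul_sum]
          refine Finset.sum_congr rfl fun k _ => ?_
          ring
      _ = ∑ k, (w k - z k) * ∑ j, a j * eval z (pderiv k (f j)) := by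
          rw [Finset.sum_comm]
          refine Finset.sum_congr rfl fun k _ => ?_
          rw [Finset.mul_sum]
      _ = 0 := by
          refine Finset.sum_eq_zero fun k _ => ?_
          rw [ha, mul_zero]
  have h6 : ∏ l, (0 - τ l) ≠ 0 :=
    Finset.prod_ne_zero_iff.2 fun l _ => sub_ne_zero.2 (h01 l).1.symm
  have h7 : ∑ j, a j * v j = 0 := (mul_eq_zero.1 h5).resolve_right h6
  calc ∑ j, a j * eval w (f j) = (∑ j, a j * v j) * ∏ l, (1 - τ l) := by
        rw [Finset.sum_mul]
        refine Finset.sum_congr rfl fun j _ => ?_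
        rw [h2, mul_assoc]
    _ = 0 := by rw [h7, zero_mul]

/-! ### arithmetic of the graph -/

theorem arith {n d b μ : ℕ} (h : BH n d b μ) (hD : μ % n ≠ 0) (hq : μ / n + μ % n < n) :
    3 ≤ n ∧ b ≤ (b * μ + n - 1) / n ∧ (b * μ + n - 1) / n ≤ μ ∧
      b * μ ≤ n * ((b * μ + n - 1) / n) ∧ b * μ + 1 ≤ d ∧ (b * μ + n - 1) / n + μ ≤ d + 1 := by
  obtain ⟨hn2, hd, hb1, hbn, hnμ, -⟩ := h
  have hq1 : 1 ≤ μ / n := Nat.div_pos hnμ (by omega)
  have h3 : 3 ≤ n := by omega
  have hμn : μ < n * n := by
    have h1 := Nat.div_add_mod μ n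
    have h2 : n * (μ / n) + n ≤ n * n := by
      have : μ / n + 1 ≤ n := by omega
      calc n * (μ / n) + n = n * (μ / n + 1) := by ring
        _ ≤ n * n := Nat.mul_le_mul le_rfl this
    have h4 : μ % n < n := Nat.mod_lt _ (by omega)
    omega
  have h4 : b * n ≤ b * μ := Nat.mul_le_mul le_rfl hnμ
  have h5 : b * μ ≤ n * μ := Nat.mul_le_mul hbn le_rfl
  have h6 : b ≤ (b * μ + n - 1) / n := by
    rw [Nat.le_div_iff_mul_le (by omega)]
    omega
  have h7 : (b * μ + n - 1) / n ≤ μ := by
    have : (b * μ + n - 1) / n < μ + 1 := by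
      rw [Nat.div_lt_iff_lt_mul (by omega)]
      have : (μ + 1) * n = n * μ + n := by ring
      omega
    omega
  have h8 : b * μ ≤ n * ((b * μ + n - 1) / n) := by
    have h9 := Nat.div_add_mod (b * μ + n - 1) n
    have h10 : (b * μ + n - 1) % n < n := Nat.mod_lt _ (by omega)
    omega
  have h11 : n * μ + 1 ≤ n ^ 3 := by
    have h12 : n * (μ + 1) ≤ n * (n * n) := Nat.mul_le_mul le_rfl hμn
    have h13 : n ^ 3 = n * (n * n) := by ring
    have h14 : n * (μ + 1) = n * μ + n := by ring
    omega
  have h15 : 2 * μ ≤ n * μ := Nat.mul_le_mul (by omega) le_rfl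
  exact ⟨h3, h6, h7, h8, by omega, by omega⟩

/-! ### the block lemma -/

theorem C2 (hX : S_X) : S_C2 := by
  classical
  intro n d b μ hBH hD hq
  obtain ⟨h3, hbm, hmμ, hE, hEd, hmd⟩ := arith hBH hD hq
  obtain ⟨hn2, hd, hb1, hbn, hnμ, -⟩ := hBH
  unfold Block
  generalize (b * μ + n - 1) / n = m at *
  obtain ⟨r, rfl⟩ : ∃ r, d = r + 1 := ⟨d - 1, by omega⟩
  have hm0 : 0 < m := by omega
  have hb0 : 0 < b := hb1
  have hμ0 : 0 < μ := by omega
  have hmE : m ≤ b * μ := hmμ.trans (Nat.le_mul_of_pos_left _ hb0)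
  set src : Fin (b * μ) → Fin m := fun e => ⟨e.val % m, Nat.mod_lt _ hm0⟩ with hsrc
  set tgt : Fin (b * μ) → Fin μ := fun e => ⟨e.val / b, by
    rw [Nat.div_lt_iff_lt_mul hb0]; exact lt_of_lt_of_eq e.2 (mul_comm b μ)⟩ with htgt
  set u : Fin m ⊕ Fin μ → ℂ := Sum.elim (fun i => ((i.val : ℕ) : ℂ)) (fun k => ((m + k.val : ℕ) : ℂ))
    with hu
  have hr : r + 1 - 1 = r := rfl
  set τ : Fin (r + 1 - 1) → ℂ := fun l => ((l.val + 2 : ℕ) : ℂ) with hτd
  have hu_inj : Function.Injective u := by
    rintro (i | i) (j | j) hij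
    · simp only [hu, Sum.elim_inl, Nat.cast_inj] at hij
      rw [Fin.ext hij]
    · simp only [hu, Sum.elim_inl, Sum.elim_inr, Nat.cast_inj] at hij
      have := i.2
      omega
    · simp only [hu, Sum.elim_inl, Sum.elim_inr, Nat.cast_inj] at hij
      have := j.2
      omega
    · simp only [hu, Sum.elim_inr, Nat.cast_inj] at hij
      rw [Fin.ext (Nat.add_left_cancel hij)]
  have hτ_inj : Function.Injective τ := by
    intro i j hij
    simp only [hτd, Nat.cast_inj] at hij
    exact Fin.ext (by omega)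
  have hτ01 : ∀ l, τ l ≠ 0 ∧ τ l ≠ 1 := by
    intro l
    constructor
    · simp only [hτd]
      exact Nat.cast_ne_zero.2 (by omega)
    · simp only [hτd]
      intro h
      have h' : l.val + 2 = 1 := by exact_mod_cast h
      omega
  have hsurj1 : Function.Surjective src := by
    intro i
    refine ⟨⟨i.val, lt_of_lt_of_le i.2 hmE⟩, ?_⟩
    simp only [hsrc]
    exact Fin.ext (Nat.mod_eq_of_lt i.2)
  have hsurj2 : Function.Surjective tgt := by
    intro k
    refine ⟨⟨b * k.val, Nat.mul_lt_mul_of_pos_left k.2 hb0⟩, ?_⟩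
    simp only [htgt]
    exact Fin.ext (Nat.mul_div_cancel_left _ hb0)
  have hinj : ∀ e e', src e = src e' → tgt e = tgt e' → e = e' := by
    intro e e' h1 h2
    simp only [hsrc, htgt, Fin.mk.injEq] at h1 h2
    have k1 := Nat.div_add_mod e.val b
    have k2 := Nat.div_add_mod e'.val b
    have k3 := Nat.mod_lt e.val hb0
    have k4 := Nat.mod_lt e'.val hb0
    rw [h2] at k1
    have k5 : ∀ p q : ℕ, p ≤ q → q < p + m → p % m = q % m → p = q := by
      intro p q hpq hqp hmod
      have : (q - p) % m = 0 := Nat.sub_mod_eq_zero_of_mod_eq hmod.symm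
      rw [Nat.mod_eq_of_lt (by omega)] at this
      omega
    rcases le_total e.val e'.val with hle | hle
    · exact Fin.ext (k5 _ _ hle (by omega) h1)
    · exact Fin.ext (k5 _ _ hle (by omega) h1.symm).symm
  have hcard1 : ∀ i, (Finset.univ.filter fun e => src e = i).card ≤ n := by
    intro i
    have : ((Finset.univ.filter fun e => src e = i).card) ≤ (Finset.range n).card := by
      refine Finset.card_le_card_of_injOn (fun e => e.val / m) ?_ ?_
      · intro e _
        rw [Finset.mem_coe, Finset.mem_range, Nat.div_lt_iff_lt_mul hm0]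
        exact lt_of_lt_of_le e.2 hE
      · intro e he e' he' hee
        rw [Finset.mem_coe, Finset.mem_filter] at he he'
        have h1 : e.val % m = e'.val % m := by
          have := he.2.trans he'.2.symm
          simpa only [hsrc, Fin.mk.injEq] using this
        have h2 : e.val / m = e'.val / m := hee
        apply Fin.ext
        rw [← Nat.div_add_mod e.val m, ← Nat.div_add_mod e'.val m, h1, h2]
    rwa [Finset.card_range] at this
  have hcard2 : ∀ k, (Finset.univ.filter fun e => tgt e = k).card ≤ n := by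
    intro k
    have : ((Finset.univ.filter fun e => tgt e = k).card) ≤ (Finset.range b).card := by
      refine Finset.card_le_card_of_injOn (fun e => e.val % b) ?_ ?_
      · intro e _
        rw [Finset.mem_coe, Finset.mem_range]
        exact Nat.mod_lt _ hb0
      · intro e he e' he' hee
        rw [Finset.mem_coe, Finset.mem_filter] at he he'
        have h1 : e.val / b = e'.val / b := by
          have := he.2.trans he'.2.symm
          simpa only [htgt, Fin.mk.injEq] using this
        have h2 : e.val % b = e'.val % b := hee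
        apply Fin.ext
        rw [← Nat.div_add_mod e.val b, ← Nat.div_add_mod e'.val b, h1, h2]
    rw [Finset.card_range] at this
    exact this.trans hbn
  have key := hX n (r + 1) m μ (b * μ) src tgt h3 hsurj1 hsurj2 hinj hcard1 hcard2 hEd hmd u τ
    hu_inj hτ_inj hτ01
  -- the points of the configuration
  set ptX : (Fin m ⊕ Fin μ) ⊕ (Fin (b * μ) × Fin r) → Fin n → ℂ :=
    Sum.elim (fun v k => u v ^ (k.val + 1))
      (fun p k => (1 - τ p.2) * u (Sum.inl (src p.1)) ^ (k.val + 1) +
        τ p.2 * u (Sum.inr (tgt p.1)) ^ (k.val + 1)) with hptX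
  set EV : Pol n (r + 1) →ₗ[ℂ] ((Fin m ⊕ Fin μ) ⊕ (Fin (b * μ) × Fin r) → ℂ) :=
    LinearMap.pi fun x => ev n (r + 1) (ptX x) with hEV
  have hEVs : LinearMap.range EV = ⊤ := by
    rw [LinearMap.range_eq_top]
    intro c
    obtain ⟨f, hf1, hf2⟩ := key c
    refine ⟨f, ?_⟩
    funext x
    rw [hEV, LinearMap.pi_apply, ev_apply]
    rcases x with v | ⟨e, l⟩
    · exact hf1 v
    · exact hf2 e l
  have hdim := EV.finrank_range_add_finrank_ker
  rw [hEVs, finrank_top, Module.finrank_fintype_fun_eq_card] at hdim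
  simp only [Fintype.card_sum, Fintype.card_prod, Fintype.card_fin] at hdim
  have hPol := finrank_Pol_le n (r + 1)
  obtain ⟨yg, hyg⟩ := kill_points (LinearMap.ker EV) (NN n (r + 1) - (m + μ + b * μ * r))
    (by omega)
  have hlen : NN n (r + 1) - μ - m = b * μ * r + (NN n (r + 1) - (m + μ + b * μ * r)) := by
    omega
  refine ⟨fun i k => u (Sum.inl i) ^ (k.val + 1), fun i j => ((i.val : ℕ) : ℂ) ^ (j : ℕ),
    fun t => if h : t.val < b * μ * r then ptX (Sum.inr (finProdFinEquiv.symm ⟨t.val, h⟩))
      else yg ⟨t.val - b * μ * r, by have := t.2; omega⟩, ?_⟩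
  intro f hfd hfz hfp hfy j₀
  have hline : ∀ e l j, eval (ptX (Sum.inr (e, l))) (f j) = 0 := by
    intro e l j
    have h1 := (finProdFinEquiv (e, l)).2
    have h2 := hfy ⟨(finProdFinEquiv (e, l)).val, by omega⟩ j
    simp only [h1, dite_true, Fin.eta, Equiv.symm_apply_apply] at h2
    exact h2
  have hnode : ∀ (k : Fin μ) j, eval (fun i : Fin n => u (Sum.inr k) ^ (i.val + 1)) (f j) = 0 := by
    intro k
    have hlt : ∀ s : Fin b, b * k.val + s.val < b * μ := by
      intro s
      calc b * k.val + s.val < b * k.val + b := by have := s.2; omega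
        _ = b * (k.val + 1) := by ring
        _ ≤ b * μ := Nat.mul_le_mul le_rfl k.2
    have h1 : ∀ s : Fin b, ∑ j : Fin b, (((b * k.val + s.val) % m : ℕ) : ℂ) ^ (j : ℕ) *
        eval (fun i : Fin n => u (Sum.inr k) ^ (i.val + 1)) (f j) = 0 := by
      intro s
      have htg : tgt ⟨b * k.val + s.val, hlt s⟩ = k := by
        simp only [htgt]
        apply Fin.ext
        change (b * k.val + s.val) / b = k.val
        rw [Nat.mul_add_div hb0, Nat.div_eq_of_lt s.2, add_zero]
      have h2 := edge (fun i : Fin n => u (Sum.inl (src ⟨b * k.val + s.val, hlt s⟩)) ^ (i.val + 1))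
        (fun i : Fin n => u (Sum.inr k) ^ (i.val + 1)) τ hτ_inj hτ01 f hfd
        (fun j => hfz _ j) (fun l j => by
          have h3 := hline ⟨b * k.val + s.val, hlt s⟩ l j
          simp only [hptX, Sum.elim_inr, htg] at h3
          exact h3)
        (fun j => (((b * k.val + s.val) % m : ℕ) : ℂ) ^ (j : ℕ))
        (fun i => hfp (src ⟨b * k.val + s.val, hlt s⟩) i)
      exact h2
    have h2 : Function.Injective fun s : Fin b => (((b * k.val + s.val) % m : ℕ) : ℂ) := by
      intro s s' hs
      have hs' : (((b * k.val + s.val) % m : ℕ) : ℂ) = (((b * k.val + s'.val) % m : ℕ) : ℂ) := hs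
      have h3 : (b * k.val + s.val) % m = (b * k.val + s'.val) % m := Nat.cast_injective hs'
      have h4 : src ⟨b * k.val + s.val, hlt s⟩ = src ⟨b * k.val + s'.val, hlt s'⟩ := by
        simp only [hsrc]
        exact Fin.ext h3
      have h5 : tgt ⟨b * k.val + s.val, hlt s⟩ = tgt ⟨b * k.val + s'.val, hlt s'⟩ := by
        simp only [htgt]
        apply Fin.ext
        change (b * k.val + s.val) / b = (b * k.val + s'.val) / b
        rw [Nat.mul_add_div hb0, Nat.mul_add_div hb0, Nat.div_eq_of_lt s.2,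
          Nat.div_eq_of_lt s'.2]
      have h6 := hinj _ _ h4 h5
      rw [Fin.mk.injEq] at h6
      exact Fin.ext (by omega)
    have h3 := Matrix.eq_zero_of_forall_index_sum_pow_mul_eq_zero h2 h1
    intro j
    exact congrFun h3 j
  have hker : (⟨f j₀, mem_Pol.2 (hfd j₀)⟩ : Pol n (r + 1)) ∈ LinearMap.ker EV := by
    rw [LinearMap.mem_ker]
    funext x
    rw [hEV, LinearMap.pi_apply, ev_apply]
    rcases x with (i | k) | ⟨e, l⟩
    · exact hfz i j₀
    · exact hnode k j₀
    · exact hline e l j₀
  have h0 := hyg _ hker (fun i => by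
    have h1 := hfy ⟨b * μ * r + i.val, by have := i.2; omega⟩ j₀
    have h2 : ¬ (b * μ * r + i.val < b * μ * r) := by omega
    simp only [h2, dite_false, Nat.add_sub_cancel_left, Fin.eta] at h1
    exact h1)
  exact congrArg Subtype.val h0

end Pool.Agent.War
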