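import Pool.Agent.War.Stmts

/-!
# The Horace step for double points (MP_db021c_ag)   (helper46)
-/

set_option autoImplicit false

open Module MvPolynomial

namespace Pool.Agent.War

/-- `hp` as a linear map -/
def hpL (n : ℕ) : (Fin n → ℂ) →ₗ[ℂ] (Fin (n + 1) → ℂ) where
  toFun := hp
  map_add' x y := by
    ext i
    refine Fin.cases ?_ (fun j => ?_) i <;> simp
  map_smul' c x := by
    ext i
    refine Fin.cases ?_ (fun j => ?_) i <;> simp

@[simp] theorem hpL_apply {n : ℕ} (z : Fin n → ℂ) : hpL n z = hp z := rfl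

theorem eval_mulX {n d : ℕ} (z : Fin (n + 1) → ℂ) (g : Pol (n + 1) d) :
    eval z (mulX n d g : MvPolynomial (Fin (n + 1)) ℂ) =
      z 0 * eval z (g : MvPolynomial (Fin (n + 1)) ℂ) := by
  simp

theorem eval_pderiv_mulX_zero {n d : ℕ} (z : Fin (n + 1) → ℂ) (g : Pol (n + 1) d) :
    eval z (pderiv 0 (mulX n d g : MvPolynomial (Fin (n + 1)) ℂ)) =
      z 0 * eval z (pderiv 0 (g : MvPolynomial (Fin (n + 1)) ℂ)) +
        eval z (g : MvPolynomial (Fin (n + 1)) ℂ) := by
  rw [mulX_coe, Derivation.leibniz]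
  simp [pderiv_X_self]

theorem eval_pderiv_mulX_succ {n d : ℕ} (z : Fin (n + 1) → ℂ) (g : Pol (n + 1) d) (k : Fin n) :
    eval z (pderiv k.succ (mulX n d g : MvPolynomial (Fin (n + 1)) ℂ)) =
      z 0 * eval z (pderiv k.succ (g : MvPolynomial (Fin (n + 1)) ℂ)) := by
  rw [mulX_coe, Derivation.leibniz]
  simp [pderiv_X_of_ne (Fin.succ_ne_zero k).symm]

/-- residual part -/
theorem finrank_inf_ker_le {n d : ℕ} (Z : Submodule ℂ (Pol (n + 1) (d + 1)))
    (E : Submodule ℂ (Pol (n + 1) d)) (h : ∀ g, mulX n d g ∈ Z → g ∈ E) :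
    finrank ℂ ↥(Z ⊓ LinearMap.ker (resL n (d + 1))) ≤ finrank ℂ E := by
  have h1 : Z ⊓ LinearMap.ker (resL n (d + 1)) ≤ E.map (mulX n d) := by
    rintro f ⟨hf1, hf2⟩
    rw [ker_resL] at hf2
    obtain ⟨g, rfl⟩ := hf2
    exact ⟨g, h g hf1, rfl⟩
  refine (Submodule.finrank_mono h1).trans ?_
  exact Submodule.finrank_map_le _ _

/-- residual conditions at a point off the hyperplane -/
theorem off_hyp {n d : ℕ} {z : Fin (n + 1) → ℂ} (hz : z 0 ≠ 0) {g : Pol (n + 1) d}
    (h0 : eval z (mulX n d g : MvPolynomial (Fin (n + 1)) ℂ) = 0)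
    (h1 : ∀ k, eval z (pderiv k (mulX n d g : MvPolynomial (Fin (n + 1)) ℂ)) = 0) :
    eval z (g : MvPolynomial (Fin (n + 1)) ℂ) = 0 ∧
      ∀ k, eval z (pderiv k (g : MvPolynomial (Fin (n + 1)) ℂ)) = 0 := by
  rw [eval_mulX] at h0
  have h2 := (mul_eq_zero.1 h0).resolve_left hz
  refine ⟨h2, fun k => ?_⟩
  refine Fin.cases ?_ (fun j => ?_) k
  · have := h1 0
    rw [eval_pderiv_mulX_zero, h2, add_zero] at this
    exact (mul_eq_zero.1 this).resolve_left hz
  · have := h1 j.succ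
    rw [eval_pderiv_mulX_succ] at this
    exact (mul_eq_zero.1 this).resolve_left hz

/-- `p` double points can be independent in degree `d` -/
def GG (n d p : ℕ) : Prop :=
  ∃ z : Fin p → Fin n → ℂ, finrank ℂ (Dbl n d Finset.univ z) + (n + 1) * p ≤ NN n d

theorem GG.le {n d p : ℕ} (h : GG n d p) : (n + 1) * p ≤ NN n d := by
  obtain ⟨z, hz⟩ := h
  omega

theorem GG.gen {n d p : ℕ} (h : GG n d p) :
    Gen ℂ fun z : Fin p → Fin n → ℂ =>
      finrank ℂ (Dbl n d Finset.univ z) ≤ NN n d - (n + 1) * p := by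
  obtain ⟨z, hz⟩ := h
  exact (PK_Dbl n d Finset.univ).gen_finrank (x₀ := z) (by omega)

theorem GG.zero (n d : ℕ) : GG n d 0 := by
  refine ⟨fun i => i.elim0, ?_⟩
  rw [mul_zero, add_zero]
  exact (Submodule.finrank_le _).trans (finrank_Pol_le n d)

/-- monotonicity in the set of points -/
theorem Dbl_le_comp {n d : ℕ} {I J : Type} [Fintype I] [Fintype J] (φ : J → I)
    (z : I → Fin n → ℂ) :
    Dbl n d (Finset.univ : Finset I) z ≤ Dbl n d (Finset.univ : Finset J) fun j => z (φ j) := by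
  intro f hf
  exact ⟨fun j => hf.1 (φ j), fun j _ k => hf.2 (φ j) (Finset.mem_univ _) k⟩

/-- restriction of a configuration -/
def restr {n : ℕ} {I J : Type} (φ : J → I) : (I → Fin n → ℂ) →ₗ[ℂ] (J → Fin n → ℂ) where
  toFun z j := z (φ j)
  map_add' _ _ := rfl
  map_smul' _ _ := rfl

theorem restr_surjective {n : ℕ} {I J : Type} {φ : J → I} (hφ : Function.Injective φ) :
    Function.Surjective (restr (n := n) φ) := by
  intro w
  classical
  refine ⟨fun i => if h : ∃ j, φ j = i then w h.choose else 0, ?_⟩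
  funext j
  have h : ∃ j', φ j' = φ j := ⟨j, rfl⟩
  have h2 : h.choose = j := hφ h.choose_spec
  change (if h : ∃ j', φ j' = φ j then w h.choose else 0) = w j
  rw [dif_pos h, h2]

/-- points of a generic configuration are off the hyperplane `x₀ = 0` -/
theorem gen_off {n : ℕ} {I : Type} [Finite I] :
    Gen ℂ fun z : I → Fin (n + 1) → ℂ => ∀ i, z i 0 ≠ 0 := by
  refine Gen.forall fun i => ?_
  have h : LP (K := ℂ) (X := I → Fin (n + 1) → ℂ) fun z => z i 0 := by
    have := (LP_coord (n := n + 1) 0).comp_linear (pt (I := I) i)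
    exact this
  exact Gen.ne h (fun _ _ => 1) one_ne_zero

/-- simple points on the hyperplane, residual of double points -/
theorem gen_simple {n d u : ℕ} (E : Submodule ℂ (Pol (n + 1) d)) (hE : PK fun _ : Fin u → Fin n → ℂ => E)
    (B : ℕ) (h1 : finrank ℂ E ≤ B + u)
    (h2 : finrank ℂ ↥(E ⊓ LinearMap.ker (resL n d)) ≤ B) :
    Gen ℂ fun y : Fin u → Fin n → ℂ =>
      finrank ℂ ↥(E ⊓ ⨅ i, LinearMap.ker (ev (n + 1) d (hp (y i)))) ≤ B := by
  have hred := red (fun y : Fin n → ℂ => ev (n + 1) d (hp y)) E (E ⊓ LinearMap.ker (resL n d))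
    (fun w hw hw' => by
      have h3 : res n (w : MvPolynomial (Fin (n + 1)) ℂ) ≠ 0 := by
        intro h
        apply hw'
        refine ⟨hw, LinearMap.mem_ker.2 (Subtype.ext h)⟩
      by_contra hc
      push Not at hc
      apply h3
      refine MvPolynomial.funext fun y => ?_
      have := hc y
      rw [ev_apply, eval_hp] at this
      simpa using this) u
  obtain ⟨y, hy⟩ := hred
  refine PK.gen_finrank (x₀ := y) (hE.inf (PK.iInf fun i => PK.one
    (φ := fun y : Fin u → Fin n → ℂ => ev (n + 1) d (hp (y i))) fun f => ?_)) ?_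
  · simp only [ev_apply]
    have := ((LP_eval (f : MvPolynomial (Fin (n + 1)) ℂ)).comp_linear (hpL n)).comp_linear
      (pt (I := Fin u) i)
    exact this
  · refine hy.trans (max_le (by omega) h2)

/-- **Horace step** -/
theorem horace {n d u q p₂ : ℕ} (ha : GG n (d + 2) u) (hb : GG (n + 1) (d + 1) q)
    (hc : GG (n + 1) d p₂) (hp₂ : p₂ ≤ q)
    (hnum : NN (n + 1) d + u + (n + 2) * q ≤ NN (n + 1) (d + 1) + (n + 2) * p₂) :
    GG (n + 1) (d + 2) (u + q) := by
  have hcle : (n + 2) * p₂ ≤ NN (n + 1) d := hc.le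
  -- choice of the points off the hyperplane
  have g3 := hc.gen.comp (restr (n := n + 1) (Fin.castLE hp₂))
    (restr_surjective (Fin.castLE_injective hp₂))
  obtain ⟨w, ⟨hw1, hw2⟩, hw3⟩ := ((hb.gen.and g3).and gen_off).exists
  set E := Dbl (n + 1) (d + 1) Finset.univ w with hE
  have hw1' : finrank ℂ E ≤ NN (n + 1) (d + 1) - (n + 2) * q := hw1
  -- elements vanishing on the hyperplane
  have hE2 : finrank ℂ ↥(E ⊓ LinearMap.ker (resL n (d + 1))) ≤ NN (n + 1) d - (n + 2) * p₂ := by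
    refine (finrank_inf_ker_le E (Dbl (n + 1) d Finset.univ w) fun g hg => ?_).trans ?_
    · refine ⟨fun i => (off_hyp (hw3 i) (hg.1 i) (hg.2 i (Finset.mem_univ _))).1, fun i _ k =>
        (off_hyp (hw3 i) (hg.1 i) (hg.2 i (Finset.mem_univ _))).2 k⟩
    · refine (Submodule.finrank_mono (Dbl_le_comp (Fin.castLE hp₂) w)).trans ?_
      exact hw2
  have hbl : (n + 2) * q ≤ NN (n + 1) (d + 1) := hb.le
  -- choice of the points on the hyperplane
  have g4 := gen_simple (u := u) E ((PK_Dbl (n + 1) (d + 1) Finset.univ).comp_affine 0 w |>.congr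
    fun _ => by simp [hE]) (NN (n + 1) (d + 1) - (n + 2) * q - u) (by omega) (by omega)
  obtain ⟨y, hy1, hy2⟩ := (ha.gen.and g4).exists
  have hal := ha.le
  refine ⟨Fin.append (fun i => hp (y i)) w, ?_⟩
  set Z := Dbl (n + 1) (d + 2) Finset.univ (Fin.append (fun i => hp (y i)) w) with hZ
  have h1 := finrank_le_map_add_ker (resL n (d + 2)) Z
  have h2 : finrank ℂ (Z.map (resL n (d + 2))) ≤ NN n (d + 2) - (n + 1) * u := by
    refine (Submodule.finrank_mono ?_).trans hy1
    rintro _ ⟨f, hf, rfl⟩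
    refine ⟨fun i => ?_, fun i _ k => ?_⟩
    · have := hf.1 (Fin.castAdd q i)
      rw [Fin.append_left, eval_hp] at this
      exact this
    · have := hf.2 (Fin.castAdd q i) (Finset.mem_univ _) k.succ
      rw [Fin.append_left, eval_hp_pderiv] at this
      exact this
  have h3 : finrank ℂ ↥(Z ⊓ LinearMap.ker (resL n (d + 2))) ≤
      NN (n + 1) (d + 1) - (n + 2) * q - u := by
    refine (finrank_inf_ker_le Z _ fun g hg => ?_).trans hy2
    refine ⟨⟨fun i => ?_, fun i _ k => ?_⟩, ?_⟩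
    · have h4 := hg.1 (Fin.natAdd u i)
      have h5 := hg.2 (Fin.natAdd u i) (Finset.mem_univ _)
      rw [Fin.append_right] at h4 h5
      exact (off_hyp (hw3 i) h4 h5).1
    · have h4 := hg.1 (Fin.natAdd u i)
      have h5 := hg.2 (Fin.natAdd u i) (Finset.mem_univ _)
      rw [Fin.append_right] at h4 h5
      exact (off_hyp (hw3 i) h4 h5).2 k
    · rw [SetLike.mem_coe, Submodule.mem_iInf]
      intro i
      have h5 := hg.2 (Fin.castAdd q i) (Finset.mem_univ _) 0
      rw [Fin.append_left, eval_pderiv_mulX_zero, hp_zero, zero_mul, zero_add] at h5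
      rw [LinearMap.mem_ker, ev_apply]
      exact h5
  have e1 : NN (n + 1) (d + 2) = NN n (d + 2) + NN (n + 1) (d + 1) := NN_succ n (d + 1)
  have e2 : (n + 1 + 1) * (u + q) = (n + 1) * u + u + (n + 2) * q := by ring
  rw [e2, e1]
  omega

end Pool.Agent.War
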