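import Pool.Agent.War.Stmts

/-!
# Simultaneous Waring decompositions (MP_db021c_ag): the scalar lemma   (helper22)

General double points `z i`, `i ∈ P`, and general simple points `z i`, `i ∉ P`, cut out a space of
polynomials of dimension at most `NN n d - (n * |P| + |I|)`.
-/

set_option autoImplicit false

open Module MvPolynomial

namespace Pool.Agent.War

/-- the double points: `p` of them in good position -/
theorem SC_double (h : S_WAH) {n d p : ℕ} (hn : 1 ≤ n)
    (hp : p = 0 ∨ (2 * n ≤ d ∧ (n + 2) * p ≤ NN n (d - 2 * n))) :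
    ∃ z : Fin p → Fin n → ℂ, finrank ℂ (Dbl n d Finset.univ z) + (n + 1) * p ≤ NN n d := by
  rcases hp with rfl | ⟨h1, h2⟩
  · refine ⟨fun i => i.elim0, ?_⟩
    have h3 := Submodule.finrank_le (Dbl n d Finset.univ (fun i : Fin 0 => i.elim0))
    have h4 := finrank_Pol_le n d
    omega
  · exact h n d p hn h1 h2

/-- the double and the simple points -/
theorem SC_both (h : S_WAH) {n d p : ℕ} (k : ℕ) (hn : 1 ≤ n)
    (hp : p = 0 ∨ (2 * n ≤ d ∧ (n + 2) * p ≤ NN n (d - 2 * n))) :
    ∃ (z : Fin p → Fin n → ℂ) (y : Fin k → Fin n → ℂ),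
      finrank ℂ ↥(Dbl n d Finset.univ z ⊓ ⨅ i, LinearMap.ker (ev n d (y i))) ≤
        NN n d - ((n + 1) * p + k) := by
  obtain ⟨z, hz⟩ := SC_double h hn hp
  obtain ⟨y, hy⟩ := red (Y := Fin n → ℂ) (fun y => ev n d y) (Dbl n d Finset.univ z) ⊥ (by
    intro w _ hw
    by_contra hc
    push Not at hc
    apply hw
    rw [Submodule.mem_bot]
    apply Subtype.ext
    apply MvPolynomial.funext
    intro x
    have := hc x
    rw [ev_apply] at this
    rw [this]
    simp) k
  refine ⟨z, y, hy.trans ?_⟩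
  rw [finrank_bot]
  refine max_le ?_ (Nat.zero_le _)
  omega

theorem SC (h : S_WAH) : S_SC := by
  classical
  intro n d I _ P hn hP
  obtain ⟨z, y, hzy⟩ := SC_both h (Fintype.card I - P.card) hn hP
  have e1 : Fintype.card {i // i ∈ P} = P.card := Fintype.card_coe P
  have e2 : Fintype.card {i // ¬ i ∈ P} = Fintype.card I - P.card := by
    rw [Fintype.card_subtype_compl, e1]
  let a : {i // i ∈ P} ≃ Fin P.card := Fintype.equivFinOfCardEq e1
  let b : {i // ¬ i ∈ P} ≃ Fin (Fintype.card I - P.card) := Fintype.equivFinOfCardEq e2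
  let x₀ : I → Fin n → ℂ := fun i => if hi : i ∈ P then z (a ⟨i, hi⟩) else y (b ⟨i, hi⟩)
  have hle : Dbl n d P x₀ ≤ Dbl n d Finset.univ z ⊓ ⨅ i, LinearMap.ker (ev n d (y i)) := by
    intro f hf
    obtain ⟨f1, f2⟩ := mem_Dbl.1 hf
    rw [Submodule.mem_inf, Submodule.mem_iInf, mem_Dbl]
    have key : ∀ i : Fin P.card, x₀ (a.symm i).1 = z i := by
      intro i
      simp only [x₀]
      rw [dif_pos (a.symm i).2]
      simp
    refine ⟨⟨fun i => ?_, fun i _ k => ?_⟩, fun i => ?_⟩
    · have := f1 (a.symm i).1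
      rwa [key] at this
    · have := f2 (a.symm i).1 (a.symm i).2 k
      rwa [key] at this
    · rw [LinearMap.mem_ker, ev_apply]
      have := f1 (b.symm i).1
      simp only [x₀] at this
      rw [dif_neg (b.symm i).2] at this
      simpa using this
  refine (PK_Dbl n d P).gen_finrank (x₀ := x₀) ((Submodule.finrank_mono hle).trans (hzy.trans ?_))
  have h1 : P.card ≤ Fintype.card I := Finset.card_le_univ P
  have h2 : (n + 1) * P.card = n * P.card + P.card := by ring
  omega

end Pool.Agent.War
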