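import Pool.Agent.War.Hor

/-!
# Weak Alexander-Hirschowitz theorem (MP_db021c_ag)   (helper46)
-/

set_option autoImplicit false

open Module MvPolynomial

namespace Pool.Agent.War

theorem NN_step {m : ℕ} (k : ℕ) (hm : 1 ≤ m) : NN m k + m ≤ NN m (k + 1) := by
  obtain ⟨m', rfl⟩ : ∃ m', m = m' + 1 := ⟨m - 1, by omega⟩
  rw [NN_succ]
  have h1 : NN m' 1 ≤ NN m' (k + 1) := NN_mono_right (by omega)
  rw [NN_right_one] at h1
  omega

theorem GG_zero_one (d : ℕ) : GG 0 d 1 := by
  refine ⟨fun _ i => i.elim0, ?_⟩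
  have h : Dbl 0 d (Finset.univ : Finset (Fin 1)) (fun _ i => i.elim0) = ⊥ := by
    rw [Submodule.eq_bot_iff]
    intro f hf
    obtain ⟨c, hc⟩ := C_surjective (R := ℂ) (Fin 0) (f : MvPolynomial (Fin 0) ℂ)
    have h1 := hf.1 0
    rw [← hc, eval_C] at h1
    apply Subtype.ext
    rw [← hc, h1, C_0]
    rfl
  rw [h, finrank_bot, NN_zero_left]

theorem GG_one : ∀ d p : ℕ, 2 * p ≤ d → GG 1 d p := by
  intro d
  induction d using Nat.strong_induction_on with
  | _ d ih =>
    intro p hp
    rcases Nat.eq_zero_or_pos p with rfl | hp0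
    · exact GG.zero _ _
    · obtain ⟨e, rfl⟩ : ∃ e, d = e + 2 := ⟨d - 2, by omega⟩
      obtain ⟨q, rfl⟩ : ∃ q, p = 1 + q := ⟨p - 1, by omega⟩
      have h := horace (n := 0) (d := e) (u := 1) (q := q) (p₂ := q) (GG_zero_one _)
        (ih (e + 1) (by omega) q (by omega)) (ih e (by omega) q (by omega)) le_rfl
        (by rw [NN_one, NN_one])
      exact h

/-- the induction step -/
theorem GG_step {m : ℕ} (hm : 1 ≤ m)
    (ihm : ∀ d p : ℕ, 2 * m ≤ d → (m + 2) * p ≤ NN m (d - 2 * m) → GG m d p) :
    ∀ d p : ℕ, (p = 0 ∨ (2 * (m + 1) ≤ d ∧ (m + 3) * p ≤ NN (m + 1) (d - 2 * (m + 1)))) →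
      GG (m + 1) d p := by
  intro d
  induction d using Nat.strong_induction_on with
  | _ d ih =>
    intro p hp
    rcases hp with rfl | ⟨hd, hp⟩
    · exact GG.zero _ _
    rcases Nat.eq_zero_or_pos p with rfl | hp0
    · exact GG.zero _ _
    -- `k = d - 2 (m + 1) ≥ 1`
    obtain ⟨k, rfl⟩ : ∃ k, d = (2 * m + k) + 2 := ⟨d - 2 * (m + 1), by omega⟩
    have ek : 2 * m + k + 2 - 2 * (m + 1) = k := by omega
    rw [ek] at hp
    have hk : 1 ≤ k := by
      by_contra hc
      have : k = 0 := by omega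
      subst this
      rw [NN_zero_right] at hp
      nlinarith
    obtain ⟨k', rfl⟩ : ∃ k', k = k' + 1 := ⟨k - 1, by omega⟩
    -- number of points on the hyperplane
    obtain ⟨u₀, hu₀⟩ : ∃ u₀, u₀ = (NN m (k' + 1) + (m + 2)) / (m + 3) := ⟨_, rfl⟩
    have hu1 : (m + 3) * u₀ ≤ NN m (k' + 1) + (m + 2) := by
      rw [hu₀]; exact Nat.mul_div_le _ _
    have hu2 : NN m (k' + 1) ≤ (m + 3) * u₀ := by
      have := Nat.lt_mul_div_succ (NN m (k' + 1) + (m + 2)) (show 0 < m + 3 by omega)
      rw [← hu₀] at this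
      have e : (m + 3) * (u₀ + 1) = (m + 3) * u₀ + (m + 3) := by ring
      omega
    obtain ⟨u, hu⟩ : ∃ u, u = min p u₀ := ⟨_, rfl⟩
    have hup : u ≤ p := by rw [hu]; exact min_le_left _ _
    have huu : u ≤ u₀ := by rw [hu]; exact min_le_right _ _
    have hmu : (m + 3) * u ≤ NN m (k' + 1) + (m + 2) :=
      (Nat.mul_le_mul_left _ huu).trans hu1
    obtain ⟨q, rfl⟩ : ∃ q, p = u + q := ⟨p - u, by omega⟩
    have hN := NN_succ m k'
    -- residual points
    have hq : q = 0 ∨ (m + 3) * q ≤ NN (m + 1) k' := by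
      rcases Nat.eq_zero_or_pos q with h | h
      · exact Or.inl h
      · right
        have : u = u₀ := by omega
        rw [this] at hp
        have e : (m + 3) * (u₀ + q) = (m + 3) * u₀ + (m + 3) * q := by ring
        omega
    -- (a)
    have s1 := NN_step (k' + 1) hm
    have s2 := NN_step (k' + 1 + 1) hm
    have s3 := NN_step (k' + 1 + 1 + 1) hm
    have hN1 : 1 ≤ NN m (k' + 1) := NN_pos _ _
    have ha : GG m (2 * m + (k' + 1) + 2) u := by
      refine ihm _ _ (by omega) ?_
      have e : 2 * m + (k' + 1) + 2 - 2 * m = k' + 1 + 1 + 1 := by omega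
      rw [e]
      have h5 : (m + 3) * ((m + 2) * u) ≤ (m + 3) * NN m (k' + 1 + 1 + 1) := by
        have h6 : (m + 3) * ((m + 2) * u) ≤ (m + 2) * (NN m (k' + 1) + (m + 2)) := by
          calc (m + 3) * ((m + 2) * u) = (m + 2) * ((m + 3) * u) := by ring
            _ ≤ _ := Nat.mul_le_mul_left _ hmu
        have h7 : (m + 2) * (NN m (k' + 1) + (m + 2)) ≤ (m + 3) * (NN m (k' + 1) + 2 * m) := by
          nlinarith
        have h8 : (m + 3) * (NN m (k' + 1) + 2 * m) ≤ (m + 3) * NN m (k' + 1 + 1 + 1) :=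
          Nat.mul_le_mul_left _ (by omega)
        exact h6.trans (h7.trans h8)
      exact Nat.le_of_mul_le_mul_left h5 (by omega)
    -- (b)
    have hb : GG (m + 1) (2 * m + (k' + 1) + 1) q := by
      refine ih _ (by omega) q ?_
      rcases hq with h | h
      · exact Or.inl h
      · right
        refine ⟨by omega, ?_⟩
        have e : 2 * m + (k' + 1) + 1 - 2 * (m + 1) = k' := by omega
        rw [e]
        exact h
    -- (c)
    obtain ⟨p₂, hp₂q, hc, hc2⟩ : ∃ p₂, p₂ ≤ q ∧ GG (m + 1) (2 * m + (k' + 1)) p₂ ∧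
        (p₂ = q ∨ (m + 3) * q ≤ (m + 3) * p₂ + NN m k' + (m + 2)) := by
      rcases Nat.eq_zero_or_pos k' with h0 | h0
      · subst h0
        have hq0 : q = 0 := by
          rcases hq with h | h
          · exact h
          · rw [NN_zero_right] at h
            by_contra hc
            have : 1 ≤ q := by omega
            nlinarith
        exact ⟨0, by omega, GG.zero _ _, Or.inl hq0.symm⟩
      · obtain ⟨j, rfl⟩ : ∃ j, k' = j + 1 := ⟨k' - 1, by omega⟩
        obtain ⟨r, hr⟩ : ∃ r, r = NN (m + 1) j / (m + 3) := ⟨_, rfl⟩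
        have hr1 : (m + 3) * r ≤ NN (m + 1) j := by
          rw [hr]; exact Nat.mul_div_le _ _
        have hr2 : NN (m + 1) j ≤ (m + 3) * r + (m + 2) := by
          have := Nat.lt_mul_div_succ (NN (m + 1) j) (show 0 < m + 3 by omega)
          rw [← hr] at this
          have e : (m + 3) * (r + 1) = (m + 3) * r + (m + 3) := by ring
          omega
        have hNj := NN_succ m j
        refine ⟨min q r, min_le_left _ _, ih _ (by omega) _ (Or.inr ⟨by omega, ?_⟩), ?_⟩
        · have e : 2 * m + (j + 1 + 1) - 2 * (m + 1) = j := by omega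
          rw [e]
          exact (Nat.mul_le_mul_left _ (min_le_right _ _)).trans hr1
        · rcases le_total q r with h | h
          · exact Or.inl (min_eq_left h)
          · right
            rw [min_eq_right h]
            rcases hq with h' | h'
            · subst h'
              omega
            · omega
    -- numbers
    have hd := NN_succ m (2 * m + (k' + 1))
    have hmono : NN m (k' + 1 + 1 + 1 + 1) ≤ NN m (2 * m + (k' + 1) + 1) :=
      NN_mono_right (by omega)
    have hnum : u + (m + 2) * q ≤ NN m (2 * m + (k' + 1) + 1) + (m + 2) * p₂ := by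
      rcases hc2 with h | h
      · subst h
        have : (m + 3) * u ≤ (m + 3) * NN m (k' + 1) := by nlinarith
        have := Nat.le_of_mul_le_mul_left this (by omega)
        omega
      · have h1 : NN m k' ≤ NN m (k' + 1) := NN_mono_right (by omega)
        have h2 : (m + 3) * (u + (m + 2) * q) ≤
            (m + 3) * (NN m (k' + 1) + (m + 2) + (m + 2) * p₂) := by
          have h3 : (m + 3) * ((m + 2) * q) ≤ (m + 2) * ((m + 3) * p₂ + NN m k' + (m + 2)) := by
            calc (m + 3) * ((m + 2) * q) = (m + 2) * ((m + 3) * q) := by ring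
              _ ≤ _ := Nat.mul_le_mul_left _ h
          nlinarith
        have := Nat.le_of_mul_le_mul_left h2 (by omega)
        omega
    exact horace ha hb hc hp₂q (by rw [hd]; linarith)

/-- section (1) -/
theorem WAH : S_WAH := by
  intro n d p hn
  induction n, hn using Nat.le_induction generalizing d p with
  | base =>
    intro hd hp
    have e : NN 1 (d - 2 * 1) = d - 2 * 1 + 1 := NN_one _
    rw [e] at hp
    exact GG_one d p (by omega)
  | succ m hm ihm =>
    intro hd hp
    exact GG_step hm (fun d p h1 h2 => ihm d p h1 h2) d p (Or.inr ⟨hd, hp⟩)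

end Pool.Agent.War
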