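import Pool.Agent.War.Stmts

/-!
# Simultaneous Waring decompositions (MP_db021c_ag): graph points impose independent conditions

Module WR_X (helper53).
-/

set_option autoImplicit false

open Module MvPolynomial

namespace Pool.Agent.War

namespace XX

/-- the hyperplane of a polynomial in the parameter of the moment curve -/
noncomputable def Hp (n : ℕ) (p : Polynomial ℂ) : MvPolynomial (Fin n) ℂ :=
  C (p.coeff 0) + ∑ k : Fin n, C (p.coeff (k.val + 1)) * X k

theorem Hp_deg (n : ℕ) (p : Polynomial ℂ) : (Hp n p).totalDegree ≤ 1 := by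
  refine (totalDegree_add _ _).trans (max_le (by simp) ?_)
  refine (totalDegree_finsetSum _ _).trans (Finset.sup_le fun k _ => ?_)
  refine (totalDegree_mul _ _).trans ?_
  simp

theorem Hp_mc {n : ℕ} {p : Polynomial ℂ} (hp : p.natDegree ≤ n) (a : ℂ) :
    p.coeff 0 + ∑ k : Fin n, p.coeff (k.val + 1) * a ^ (k.val + 1) = p.eval a := by
  rw [Polynomial.eval_eq_sum_range' (Nat.lt_succ_of_le hp), Finset.sum_range_succ',
    Finset.sum_range]
  simp [add_comm]

theorem Hp_eval {n : ℕ} {p : Polynomial ℂ} (hp : p.natDegree ≤ n) (a : ℂ) :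
    eval (fun k : Fin n => a ^ (k.val + 1)) (Hp n p) = p.eval a := by
  rw [← Hp_mc hp a, Hp]
  simp

theorem Hp_line {n : ℕ} {p : Polynomial ℂ} (hp : p.natDegree ≤ n) (a b t : ℂ) :
    eval (fun k : Fin n => (1 - t) * a ^ (k.val + 1) + t * b ^ (k.val + 1)) (Hp n p) =
      (1 - t) * p.eval a + t * p.eval b := by
  rw [← Hp_mc hp a, ← Hp_mc hp b, Hp]
  simp only [map_add, map_sum, map_mul, eval_C, eval_X]
  rw [mul_add, mul_add, Finset.mul_sum, Finset.mul_sum]
  have h : ∑ k : Fin n, p.coeff (k.val + 1) * ((1 - t) * a ^ (k.val + 1) + t * b ^ (k.val + 1)) =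
      ∑ k : Fin n, (1 - t) * (p.coeff (k.val + 1) * a ^ (k.val + 1)) +
      ∑ k : Fin n, t * (p.coeff (k.val + 1) * b ^ (k.val + 1)) := by
    rw [← Finset.sum_add_distrib]
    exact Finset.sum_congr rfl fun k _ => by ring
  rw [h]
  ring

/-- the linear interpolation polynomial -/
theorem lin_exists {a b : ℂ} (hab : a ≠ b) (x y : ℂ) :
    ∃ q : Polynomial ℂ, q.natDegree ≤ 1 ∧ q.eval a = x ∧ q.eval b = y := by
  refine ⟨Polynomial.C ((y - x) / (b - a)) * Polynomial.X +
    Polynomial.C (x - (y - x) / (b - a) * a), Polynomial.natDegree_linear_le, ?_, ?_⟩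
  · simp
  · have h : b - a ≠ 0 := sub_ne_zero.2 hab.symm
    simp
    field_simp
    ring

section

variable {n d m μ E : ℕ} (src : Fin E → Fin m) (tgt : Fin E → Fin μ)

/-- the first hyperplane -/
noncomputable def pA (u : Fin m ⊕ Fin μ → ℂ) (e0 : Fin E) : Polynomial ℂ :=
  (Polynomial.X - Polynomial.C (u (Sum.inl (src e0)))) *
    ∏ e ∈ (Finset.univ.filter fun e => src e = src e0).erase e0,
      (Polynomial.X - Polynomial.C (u (Sum.inr (tgt e))))

/-- the second hyperplane -/
noncomputable def pB (u : Fin m ⊕ Fin μ → ℂ) (e0 : Fin E) : Polynomial ℂ :=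
  (Polynomial.X - Polynomial.C (u (Sum.inr (tgt e0)))) *
    ∏ e ∈ (Finset.univ.filter fun e => tgt e = tgt e0).erase e0,
      (Polynomial.X - Polynomial.C (u (Sum.inl (src e))))

theorem prod_natDegree {ι : Type*} (s : Finset ι) (x : ι → ℂ) :
    (∏ i ∈ s, (Polynomial.X - Polynomial.C (x i))).natDegree = s.card := by
  rw [Polynomial.natDegree_prod_of_monic _ _ fun i _ => Polynomial.monic_X_sub_C _]
  simp

theorem mul_natDegree {ι : Type*} (s : Finset ι) (x : ι → ℂ) (c : ℂ) :
    ((Polynomial.X - Polynomial.C c) *
      ∏ i ∈ s, (Polynomial.X - Polynomial.C (x i))).natDegree ≤ s.card + 1 := by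
  refine Polynomial.natDegree_mul_le.trans ?_
  rw [prod_natDegree]
  have : (Polynomial.X - Polynomial.C c).natDegree = 1 := Polynomial.natDegree_X_sub_C c
  omega

end

end XX

open XX

theorem X : S_X := by
  classical
  intro n d m μ E src tgt hn hsrc htgt hinj hs ht hE hmμ u τ hu hτ hτ01 c
  -- the functions for the interior points
  have key : ∀ (e0 : Fin E) (l0 : Fin (d - 1)), ∃ g : MvPolynomial (Fin n) ℂ,
      g.totalDegree ≤ d ∧ (∀ v, eval (fun k : Fin n => u v ^ (k.val + 1)) g = 0) ∧
      (∀ e l, (e, l) ≠ (e0, l0) →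
        eval (fun k : Fin n => (1 - τ l) * u (Sum.inl (src e)) ^ (k.val + 1) +
          τ l * u (Sum.inr (tgt e)) ^ (k.val + 1)) g = 0) ∧
      eval (fun k : Fin n => (1 - τ l0) * u (Sum.inl (src e0)) ^ (k.val + 1) +
          τ l0 * u (Sum.inr (tgt e0)) ^ (k.val + 1)) g ≠ 0 := by
    intro e0 l0
    set a : ℂ := u (Sum.inl (src e0)) with ha
    set b : ℂ := u (Sum.inr (tgt e0)) with hb
    have hab : a ≠ b := fun h => by
      have := hu h
      simp at this
    -- degrees
    have hA : (pA src tgt u e0).natDegree ≤ n := by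
      refine (mul_natDegree _ _ _).trans ?_
      have h1 : e0 ∈ Finset.univ.filter fun e => src e = src e0 := by simp
      rw [Finset.card_erase_of_mem h1]
      have h2 := hs (src e0)
      have h3 : 0 < (Finset.univ.filter fun e => src e = src e0).card :=
        Finset.card_pos.2 ⟨e0, h1⟩
      omega
    have hB : (pB src tgt u e0).natDegree ≤ n := by
      refine (mul_natDegree _ _ _).trans ?_
      have h1 : e0 ∈ Finset.univ.filter fun e => tgt e = tgt e0 := by simp
      rw [Finset.card_erase_of_mem h1]
      have h2 := ht (tgt e0)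
      have h3 : 0 < (Finset.univ.filter fun e => tgt e = tgt e0).card :=
        Finset.card_pos.2 ⟨e0, h1⟩
      omega
    -- the embedding of the other edges
    have hcard : Fintype.card {e : Fin E // src e ≠ src e0 ∧ tgt e ≠ tgt e0} ≤
        Fintype.card {l : Fin (d - 1) // l ≠ l0} := by
      have h1 : Fintype.card {l : Fin (d - 1) // l ≠ l0} = d - 1 - 1 := by
        rw [Fintype.card_subtype_compl]
        simp
      have h2 : Fintype.card {e : Fin E // src e ≠ src e0 ∧ tgt e ≠ tgt e0} ≤
          Fintype.card {e : Fin E // e ≠ e0} :=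
        Fintype.card_le_of_injective (fun e => ⟨e.1, fun h => e.2.1 (by rw [h])⟩)
          fun e e' h => Subtype.ext (by simpa using h)
      have h3 : Fintype.card {e : Fin E // e ≠ e0} = E - 1 := by
        rw [Fintype.card_subtype_compl]
        simp
      omega
    obtain ⟨φ⟩ := Function.Embedding.nonempty_of_card_le hcard
    -- the remaining hyperplanes
    have hP : ∀ l : {l : Fin (d - 1) // l ≠ l0}, ∃ p : Polynomial ℂ, p.natDegree ≤ n ∧
        p.eval a = - τ l ∧ p.eval b = 1 - τ l ∧
        ∀ e : {e : Fin E // src e ≠ src e0 ∧ tgt e ≠ tgt e0}, φ e = l →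
          p.eval (u (Sum.inl (src e))) = 0 ∧ p.eval (u (Sum.inr (tgt e))) = 0 := by
      intro l
      by_cases hl : ∃ e, φ e = l
      · obtain ⟨e, rfl⟩ := hl
        have h1 : a - u (Sum.inl (src e)) ≠ 0 := sub_ne_zero.2 fun h => e.2.1 (by
          have := hu h
          simpa using this.symm)
        have h2 : a - u (Sum.inr (tgt e)) ≠ 0 := sub_ne_zero.2 fun h => by
          have := hu h
          simp at this
        have h3 : b - u (Sum.inl (src e)) ≠ 0 := sub_ne_zero.2 fun h => by
          have := hu h
          simp at this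
        have h4 : b - u (Sum.inr (tgt e)) ≠ 0 := sub_ne_zero.2 fun h => e.2.2 (by
          have := hu h
          simpa using this.symm)
        obtain ⟨q, hq, hqa, hqb⟩ := lin_exists hab
          (- τ (φ e) / ((a - u (Sum.inl (src e))) * (a - u (Sum.inr (tgt e)))))
          ((1 - τ (φ e)) / ((b - u (Sum.inl (src e))) * (b - u (Sum.inr (tgt e)))))
        refine ⟨(Polynomial.X - Polynomial.C (u (Sum.inl (src e)))) *
          (Polynomial.X - Polynomial.C (u (Sum.inr (tgt e)))) * q, ?_, ?_, ?_, ?_⟩
        · refine Polynomial.natDegree_mul_le.trans ?_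
          have k1 := Polynomial.natDegree_mul_le
            (p := Polynomial.X - Polynomial.C (u (Sum.inl (src e))))
            (q := Polynomial.X - Polynomial.C (u (Sum.inr (tgt e))))
          rw [Polynomial.natDegree_X_sub_C, Polynomial.natDegree_X_sub_C] at k1
          omega
        · simp only [Polynomial.eval_mul, Polynomial.eval_sub, Polynomial.eval_X,
            Polynomial.eval_C, hqa]
          field_simp
        · simp only [Polynomial.eval_mul, Polynomial.eval_sub, Polynomial.eval_X,
            Polynomial.eval_C, hqb]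
          field_simp
        · intro e' he'
          have := φ.injective he'
          subst this
          simp
      · obtain ⟨q, hq, hqa, hqb⟩ := lin_exists hab (- τ l) (1 - τ l)
        exact ⟨q, by omega, hqa, hqb, fun e he => (hl ⟨e, he⟩).elim⟩
    choose p hp1 hp2 hp3 hp4 using hP
    refine ⟨Hp n (pA src tgt u e0) * Hp n (pB src tgt u e0) * ∏ l, Hp n (p l), ?_, ?_, ?_, ?_⟩
    · refine (totalDegree_mul _ _).trans ?_
      have h1 : (Hp n (pA src tgt u e0) * Hp n (pB src tgt u e0)).totalDegree ≤ 2 :=
        (totalDegree_mul _ _).trans (add_le_add (Hp_deg _ _) (Hp_deg _ _))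
      have h2 : (∏ l, Hp n (p l)).totalDegree ≤ d - 2 := by
        refine (totalDegree_finsetProd _ _).trans ?_
        refine (Finset.sum_le_sum fun l _ => Hp_deg n (p l)).trans ?_
        simp only [Finset.sum_const, smul_eq_mul, mul_one, Finset.card_univ]
        rw [Fintype.card_subtype_compl]
        simp
        omega
      have h3 : 0 < E := e0.pos
      omega
    · -- nodes
      intro v
      rw [map_mul, map_mul, map_prod]
      simp only [Hp_eval hA, Hp_eval hB, Hp_eval (hp1 _)]
      rcases v with i | k
      · obtain ⟨e, he⟩ := hsrc i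
        by_cases h1 : i = src e0
        · subst h1
          simp [pA]
        · by_cases h2 : tgt e = tgt e0
          · have h3 : (pB src tgt u e0).eval (u (Sum.inl i)) = 0 := by
              rw [pB, Polynomial.eval_mul, Polynomial.eval_prod]
              have h4 : e ∈ (Finset.univ.filter fun e => tgt e = tgt e0).erase e0 := by
                simp only [Finset.mem_erase, Finset.mem_filter, Finset.mem_univ, true_and]
                exact ⟨fun h => h1 (by rw [← he, h]), h2⟩
              rw [Finset.prod_eq_zero h4 (by simp [he]), mul_zero]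
            rw [h3]; ring
          · have h3 : (∏ l, (p l).eval (u (Sum.inl i))) = 0 := by
              have h5 : src e ≠ src e0 ∧ tgt e ≠ tgt e0 := ⟨by rw [he]; exact h1, h2⟩
              refine Finset.prod_eq_zero (Finset.mem_univ (φ ⟨e, h5⟩)) ?_
              have := (hp4 (φ ⟨e, h5⟩) ⟨e, h5⟩ rfl).1
              simpa [he] using this
            rw [h3]; ring
      · obtain ⟨e, he⟩ := htgt k
        by_cases h1 : k = tgt e0
        · subst h1
          simp [pB]
        · by_cases h2 : src e = src e0
          · have h3 : (pA src tgt u e0).eval (u (Sum.inr k)) = 0 := by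
              rw [pA, Polynomial.eval_mul, Polynomial.eval_prod]
              have h4 : e ∈ (Finset.univ.filter fun e => src e = src e0).erase e0 := by
                simp only [Finset.mem_erase, Finset.mem_filter, Finset.mem_univ, true_and]
                exact ⟨fun h => h1 (by rw [← he, h]), h2⟩
              rw [Finset.prod_eq_zero h4 (by simp [he]), mul_zero]
            rw [h3]; ring
          · have h3 : (∏ l, (p l).eval (u (Sum.inr k))) = 0 := by
              have h5 : src e ≠ src e0 ∧ tgt e ≠ tgt e0 := ⟨h2, by rw [he]; exact h1⟩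
              refine Finset.prod_eq_zero (Finset.mem_univ (φ ⟨e, h5⟩)) ?_
              have := (hp4 (φ ⟨e, h5⟩) ⟨e, h5⟩ rfl).2
              simpa [he] using this
            rw [h3]; ring
    · -- other interior points
      intro e l hel
      rw [map_mul, map_mul, map_prod]
      simp only [Hp_line hA, Hp_line hB, Hp_line (hp1 _)]
      by_cases he : e = e0
      · subst he
        have hl : l ≠ l0 := fun h => hel (by rw [h])
        have h3 : (∏ x, ((1 - τ l) * (p x).eval (u (Sum.inl (src e))) +
            τ l * (p x).eval (u (Sum.inr (tgt e))))) = 0 := by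
          refine Finset.prod_eq_zero (Finset.mem_univ (⟨l, hl⟩ : {l : Fin (d - 1) // l ≠ l0})) ?_
          have k1 := hp2 ⟨l, hl⟩
          have k2 := hp3 ⟨l, hl⟩
          rw [ha] at k1
          rw [hb] at k2
          rw [k1, k2]
          ring
        rw [h3]; ring
      · by_cases h1 : src e = src e0
        · have h3 : (pA src tgt u e0).eval (u (Sum.inl (src e))) = 0 := by
            rw [h1]; simp [pA]
          have h4 : (pA src tgt u e0).eval (u (Sum.inr (tgt e))) = 0 := by
            rw [pA, Polynomial.eval_mul, Polynomial.eval_prod]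
            have h4 : e ∈ (Finset.univ.filter fun e => src e = src e0).erase e0 := by
              simp only [Finset.mem_erase, Finset.mem_filter, Finset.mem_univ, true_and]
              exact ⟨he, h1⟩
            rw [Finset.prod_eq_zero h4 (by simp), mul_zero]
          rw [h3, h4]; ring
        · by_cases h2 : tgt e = tgt e0
          · have h3 : (pB src tgt u e0).eval (u (Sum.inr (tgt e))) = 0 := by
              rw [h2]; simp [pB]
            have h4 : (pB src tgt u e0).eval (u (Sum.inl (src e))) = 0 := by
              rw [pB, Polynomial.eval_mul, Polynomial.eval_prod]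
              have h4 : e ∈ (Finset.univ.filter fun e => tgt e = tgt e0).erase e0 := by
                simp only [Finset.mem_erase, Finset.mem_filter, Finset.mem_univ, true_and]
                exact ⟨he, h2⟩
              rw [Finset.prod_eq_zero h4 (by simp), mul_zero]
            rw [h3, h4]; ring
          · have h3 : (∏ x, ((1 - τ l) * (p x).eval (u (Sum.inl (src e))) +
                τ l * (p x).eval (u (Sum.inr (tgt e))))) = 0 := by
              have h5 : src e ≠ src e0 ∧ tgt e ≠ tgt e0 := ⟨h1, h2⟩
              refine Finset.prod_eq_zero (Finset.mem_univ (φ ⟨e, h5⟩)) ?_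
              have := hp4 (φ ⟨e, h5⟩) ⟨e, h5⟩ rfl
              simp only at this
              rw [this.1, this.2]
              ring
            rw [h3]; ring
    · -- the point itself
      rw [map_mul, map_mul, map_prod]
      simp only [Hp_line hA, Hp_line hB, Hp_line (hp1 _), hp2, hp3]
      have h1 : (pA src tgt u e0).eval a = 0 := by simp [pA, ha]
      have h2 : (pB src tgt u e0).eval b = 0 := by simp [pB, hb]
      rw [h1, h2]
      refine mul_ne_zero (mul_ne_zero ?_ ?_) ?_
      · rw [mul_zero, zero_add]
        refine mul_ne_zero (hτ01 l0).1 ?_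
        rw [pA, Polynomial.eval_mul, Polynomial.eval_prod]
        refine mul_ne_zero ?_ (Finset.prod_ne_zero_iff.2 fun e he => ?_)
        · simpa [sub_eq_zero, ha] using hab.symm
        · simp only [Finset.mem_erase, Finset.mem_filter, Finset.mem_univ, true_and] at he
          simp only [Polynomial.eval_sub, Polynomial.eval_X, Polynomial.eval_C]
          refine sub_ne_zero.2 fun h => he.1 ?_
          have := hu (hb.symm.trans h)
          exact hinj _ _ he.2 (by simpa using this.symm)
      · rw [mul_zero, add_zero]
        refine mul_ne_zero (sub_ne_zero.2 (hτ01 l0).2.symm) ?_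
        rw [pB, Polynomial.eval_mul, Polynomial.eval_prod]
        refine mul_ne_zero ?_ (Finset.prod_ne_zero_iff.2 fun e he => ?_)
        · simpa [sub_eq_zero, hb] using hab
        · simp only [Finset.mem_erase, Finset.mem_filter, Finset.mem_univ, true_and] at he
          simp only [Polynomial.eval_sub, Polynomial.eval_X, Polynomial.eval_C]
          refine sub_ne_zero.2 fun h => he.1 ?_
          have := hu (ha.symm.trans h)
          exact hinj _ _ (by simpa using this.symm) he.2
      · refine Finset.prod_ne_zero_iff.2 fun l _ => ?_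
        have h3 : (1 - τ l0) * -τ l + τ l0 * (1 - τ l) = τ l0 - τ l := by ring
        rw [h3]
        exact sub_ne_zero.2 fun h => l.2 (hτ h).symm
  -- the functions for the nodes
  have node : ∀ v : Fin m ⊕ Fin μ, ∃ g : MvPolynomial (Fin n) ℂ, g.totalDegree ≤ d ∧
      (∀ v', v' ≠ v → eval (fun k : Fin n => u v' ^ (k.val + 1)) g = 0) ∧
      eval (fun k : Fin n => u v ^ (k.val + 1)) g = 1 := by
    intro v
    have hne : ∏ v' ∈ Finset.univ.erase v, (u v - u v') ≠ 0 := by
      refine Finset.prod_ne_zero_iff.2 fun v' hv' => sub_ne_zero.2 fun h => ?_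
      exact (Finset.mem_erase.1 hv').1 (hu h).symm
    set k0 : Fin n := ⟨0, by omega⟩ with hk0
    refine ⟨C (∏ v' ∈ Finset.univ.erase v, (u v - u v'))⁻¹ *
      ∏ v' ∈ Finset.univ.erase v, (MvPolynomial.X k0 - C (u v')), ?_, ?_, ?_⟩
    · refine (totalDegree_mul _ _).trans ?_
      rw [totalDegree_C, zero_add]
      refine (totalDegree_finsetProd _ _).trans ?_
      have h1 : ∀ v' ∈ Finset.univ.erase v,
          (MvPolynomial.X k0 - C (u v') : MvPolynomial (Fin n) ℂ).totalDegree ≤ 1 := by
        intro v' _
        refine (totalDegree_sub _ _).trans ?_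
        simp
      refine (Finset.sum_le_sum h1).trans ?_
      rw [Finset.sum_const, smul_eq_mul, mul_one, Finset.card_erase_of_mem (Finset.mem_univ _)]
      simp
      omega
    · intro v' hv'
      rw [map_mul, map_prod]
      have h1 : (∏ x ∈ Finset.univ.erase v,
          eval (fun k : Fin n => u v' ^ (k.val + 1)) (MvPolynomial.X k0 - C (u x))) = 0 := by
        refine Finset.prod_eq_zero (Finset.mem_erase.2 ⟨hv', Finset.mem_univ _⟩) ?_
        simp [hk0]
      rw [h1, mul_zero]
    · rw [map_mul, map_prod]
      simp only [map_sub, eval_C, eval_X, hk0, zero_add, pow_one]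
      exact inv_mul_cancel₀ hne
  choose g hg1 hg2 hg3 hg4 using key
  choose h hh1 hh2 hh3 using node
  -- value of an interior point
  set pnt : Fin E → Fin (d - 1) → Fin n → ℂ := fun e l k =>
    (1 - τ l) * u (Sum.inl (src e)) ^ (k.val + 1) + τ l * u (Sum.inr (tgt e)) ^ (k.val + 1)
    with hpnt
  obtain ⟨F0, hF0⟩ : ∃ F0 : MvPolynomial (Fin n) ℂ, F0 = ∑ v, C (c (Sum.inl v)) * h v :=
    ⟨_, rfl⟩
  obtain ⟨F, hF⟩ : ∃ F : MvPolynomial (Fin n) ℂ, F = F0 + ∑ q : Fin E × Fin (d - 1),
    C ((c (Sum.inr q) - eval (pnt q.1 q.2) F0) / eval (pnt q.1 q.2) (g q.1 q.2)) * g q.1 q.2 :=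
    ⟨_, rfl⟩
  have hdeg : F.totalDegree ≤ d := by
    rw [hF]
    refine (totalDegree_add _ _).trans (max_le ?_ ?_)
    rw [hF0]
    · refine (totalDegree_finsetSum _ _).trans (Finset.sup_le fun v _ => ?_)
      refine (totalDegree_mul _ _).trans ?_
      rw [totalDegree_C, zero_add]
      exact hh1 v
    · refine (totalDegree_finsetSum _ _).trans (Finset.sup_le fun q _ => ?_)
      refine (totalDegree_mul _ _).trans ?_
      rw [totalDegree_C, zero_add]
      exact hg1 q.1 q.2
  refine ⟨⟨F, mem_Pol.2 hdeg⟩, fun v => ?_, fun e l => ?_⟩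
  · change eval (fun k : Fin n => u v ^ (k.val + 1)) F = _
    rw [hF, map_add, map_sum]
    have h1 : ∑ q : Fin E × Fin (d - 1), eval (fun k : Fin n => u v ^ (k.val + 1))
        (C ((c (Sum.inr q) - eval (pnt q.1 q.2) F0) / eval (pnt q.1 q.2) (g q.1 q.2)) *
          g q.1 q.2) = 0 := by
      refine Finset.sum_eq_zero fun q _ => ?_
      rw [map_mul, hg2, mul_zero]
    rw [h1, add_zero, hF0, map_sum, Finset.sum_eq_single v]
    · rw [map_mul, hh3, eval_C, mul_one]
    · intro v' _ hv'
      rw [map_mul, hh2 v' v hv'.symm, mul_zero]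
    · intro hv; exact absurd (Finset.mem_univ v) hv
  · change eval (pnt e l) F = _
    rw [hF, map_add, map_sum, Finset.sum_eq_single (e, l)]
    · rw [map_mul, eval_C, div_mul_cancel₀]
      · ring
      · exact hg4 e l
    · intro q _ hq
      rw [map_mul]
      have := hg3 q.1 q.2 e l (by
        intro h
        exact hq h.symm)
      rw [show eval (pnt e l) (g q.1 q.2) = 0 from this, mul_zero]
    · intro hv; exact absurd (Finset.mem_univ _) hv

end Pool.Agent.War
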