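import Pool.Agent.War.TOP
import Pool.Agent.War.WAH
import Pool.Agent.War.SC
import Pool.Agent.War.C0
import Pool.Agent.War.X
import Pool.Agent.Lib_helper88.Waring.Neg

/-!
# Simultaneous Waring decompositions (MP_db021c_ag): assembly   (helper46)
-/

set_option autoImplicit false

open Module MvPolynomial

namespace Pool.Agent.War

theorem BLK (h0 : S_C0) (h1 : S_C1) (h2 : S_C2) : S_BLK := by
  intro n d b μ hB
  by_cases hm : μ % n = 0
  · exact h0 n d b μ hB hm
  · by_cases hq : n ≤ μ / n + μ % n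
    · exact h1 n d b μ hB hm hq
    · exact h2 n d b μ hB hm (by omega)

/-- there are `N` points such that the only polynomial of degree `≤ d` vanishing there is zero -/
theorem points (hSC : S_SC) {n d : ℕ} (hn : 1 ≤ n) : ∃ z : Fin (NN n d) → Fin n → ℂ,
    ∀ f : MvPolynomial (Fin n) ℂ, f.totalDegree ≤ d → (∀ i, eval (z i) f = 0) → f = 0 := by
  obtain ⟨z, hz⟩ := (hSC n d (Fin (NN n d)) ∅ hn (Or.inl Finset.card_empty)).exists
  refine ⟨z, fun f hf hv => ?_⟩
  have h0 : finrank ℂ (Dbl n d (∅ : Finset (Fin (NN n d))) z) = 0 := by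
    simpa using hz
  have h1 : Dbl n d (∅ : Finset (Fin (NN n d))) z = ⊥ := Submodule.finrank_eq_zero.mp h0
  have h2 : (⟨f, mem_Pol.mpr hf⟩ : Pol n d) ∈ Dbl n d (∅ : Finset (Fin (NN n d))) z := by
    rw [mem_Dbl]
    exact ⟨hv, fun i hi => absurd hi (Finset.notMem_empty i)⟩
  rw [h1, Submodule.mem_bot] at h2
  exact congrArg Subtype.val h2

theorem W_top (hSC : S_SC) {n d : ℕ} (s : ℕ) (hn : 1 ≤ n) : Waring.W d (NN n d) n s := by
  obtain ⟨z, hz⟩ := points hSC (d := d) hn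
  exact Waring.W_of_dual z (fun _ _ => 0) fun g hg h1 _ j => hz (g j) (hg j) fun i => h1 i j

theorem W_iff (hT : S_TOP) (hSC : S_SC) (n d s h : ℕ) (hn : 2 ≤ n) (hd : 1 ≤ d)
    (hs : n + 1 ≤ s) (hds : n ^ 3 + 60 ≤ d ∨ (n + d).choose n ≤ s) :
    Waring.W d h n s ↔ min s ((n + d).choose n) ≤ h ∧ s * (n + d).choose n ≤ h * (n + s) := by
  refine ⟨fun H => ⟨H.bound2, H.bound1 hd⟩, fun H => ?_⟩
  by_cases hN : (n + d).choose n ≤ h
  · exact (W_top hSC s (by omega : 1 ≤ n)).mono hN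
  · have hsN : ¬ (n + d).choose n ≤ s := fun hle => hN (by
      rw [min_eq_right hle] at H; exact H.1)
    have hsh : s ≤ h := by
      rw [min_eq_left (by omega)] at H; exact H.1
    have hd' : n ^ 3 + 60 ≤ d := hds.resolve_right hsN
    obtain ⟨z, a, y, hK⟩ := hT n d s h hn hd' hs hsh (by unfold NN; omega) H.2
    exact Waring.W_of_dual z a fun g hg h1 h2 => hK g hg h1 h2 fun i => i.elim0

end Pool.Agent.War
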