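import Pool.Agent.War.Tool

/-!
# Simultaneous Waring decompositions (MP_db021c_ag): polynomials of bounded degree   (helper46)

`Pol n d`: polynomials of total degree `≤ d` in `n` variables over `ℂ`; the restriction to the
hyperplane `x₀ = 0` and its kernel.
-/

set_option autoImplicit false

open Module MvPolynomial

namespace Pool.Agent.War

/-- number of monomials of degree `≤ d` in `n` variables -/
abbrev NN (n d : ℕ) : ℕ := (n + d).choose n

/-- polynomials of degree `≤ d` in `n` variables -/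
noncomputable abbrev Pol (n d : ℕ) : Submodule ℂ (MvPolynomial (Fin n) ℂ) := restrictTotalDegree (Fin n) ℂ d

theorem mem_Pol {n d : ℕ} {f : MvPolynomial (Fin n) ℂ} : f ∈ Pol n d ↔ f.totalDegree ≤ d :=
  mem_restrictTotalDegree _ _ _

theorem NN_zero_right (n : ℕ) : NN n 0 = 1 := by simp [NN]

theorem NN_zero_left (d : ℕ) : NN 0 d = 1 := by simp [NN]

theorem NN_succ (n d : ℕ) : NN (n + 1) (d + 1) = NN n (d + 1) + NN (n + 1) d := by
  unfold NN
  rw [show n + 1 + (d + 1) = (n + d + 1) + 1 by ring, Nat.choose_succ_succ,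
    show n + (d + 1) = n + d + 1 by ring, show n + 1 + d = n + d + 1 by ring]

theorem NN_pos (n d : ℕ) : 0 < NN n d := Nat.choose_pos (by omega)

theorem NN_mono_right {n d d' : ℕ} (h : d ≤ d') : NN n d ≤ NN n d' :=
  Nat.choose_le_choose _ (by omega)

theorem NN_one (d : ℕ) : NN 1 d = d + 1 := by simp [NN]; ring

theorem NN_right_one (n : ℕ) : NN n 1 = n + 1 := by simp [NN]

/-! ### restriction to the hyperplane `x₀ = 0` -/

/-- restriction to `x₀ = 0` -/
noncomputable def res (n : ℕ) : MvPolynomial (Fin (n + 1)) ℂ →ₐ[ℂ] MvPolynomial (Fin n) ℂ :=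
  aeval (Fin.cons 0 X : Fin (n + 1) → MvPolynomial (Fin n) ℂ)

theorem res_X_zero (n : ℕ) : res n (X 0) = 0 := by simp [res]

theorem res_X_succ (n : ℕ) (i : Fin n) : res n (X i.succ) = X i := by simp [res]

theorem res_C (n : ℕ) (c : ℂ) : res n (C c) = C c := by simp [res]

/-- point of the hyperplane -/
def hp {n : ℕ} (z : Fin n → ℂ) : Fin (n + 1) → ℂ := Fin.cons 0 z

@[simp] theorem hp_zero {n : ℕ} (z : Fin n → ℂ) : hp z 0 = 0 := rfl

@[simp] theorem hp_succ {n : ℕ} (z : Fin n → ℂ) (i : Fin n) : hp z i.succ = z i := rfl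

theorem eval_hp {n : ℕ} (z : Fin n → ℂ) (f : MvPolynomial (Fin (n + 1)) ℂ) :
    eval (hp z) f = eval z (res n f) := by
  induction f using MvPolynomial.induction_on with
  | C a => simp [res_C]
  | add p q hp hq => simp [hp, hq]
  | mul_X p k hp =>
    refine Fin.cases ?_ (fun i => ?_) k
    · simp [res_X_zero]
    · simp [res_X_succ, hp]

theorem res_pderiv {n : ℕ} (i : Fin n) (f : MvPolynomial (Fin (n + 1)) ℂ) :
    res n (pderiv i.succ f) = pderiv i (res n f) := by
  induction f using MvPolynomial.induction_on with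
  | C a => simp [res_C]
  | add p q hp hq => simp [hp, hq]
  | mul_X p k hp =>
    refine Fin.cases ?_ (fun j => ?_) k
    · simp [res_X_zero, Derivation.leibniz, hp, pderiv_X_of_ne (Fin.succ_ne_zero i).symm]
    · by_cases hij : j = i
      · subst hij
        simp [res_X_succ, Derivation.leibniz, hp]
      · have h1 : j.succ ≠ i.succ := fun h => hij (Fin.succ_injective _ h)
        simp [res_X_succ, Derivation.leibniz, hp, pderiv_X_of_ne hij, pderiv_X_of_ne h1]

theorem eval_hp_pderiv {n : ℕ} (z : Fin n → ℂ) (i : Fin n) (f : MvPolynomial (Fin (n + 1)) ℂ) :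
    eval (hp z) (pderiv i.succ f) = eval z (pderiv i (res n f)) := by
  rw [eval_hp, res_pderiv]

theorem res_eq_coeff {n : ℕ} (f : MvPolynomial (Fin (n + 1)) ℂ) :
    res n f = (finSuccEquiv ℂ n f).coeff 0 := by
  have h : (Polynomial.constantCoeff : Polynomial (MvPolynomial (Fin n) ℂ) →+* _).comp
      (finSuccEquiv ℂ n : MvPolynomial (Fin (n + 1)) ℂ →+* _) = (res n : _ →+* _) := by
    apply MvPolynomial.ringHom_ext
    · intro r
      simp [finSuccEquiv_apply, res_C]
    · intro i
      refine Fin.cases ?_ (fun j => ?_) i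
      · simp [finSuccEquiv_X_zero, res_X_zero]
      · simp [finSuccEquiv_X_succ, res_X_succ]
  have := congrArg (fun g => g f) h
  simpa using this.symm

theorem res_totalDegree_le {n : ℕ} (f : MvPolynomial (Fin (n + 1)) ℂ) :
    (res n f).totalDegree ≤ f.totalDegree := by
  rw [res_eq_coeff]
  by_cases h : (finSuccEquiv ℂ n f).coeff 0 = 0
  · rw [h]; simp
  · have := totalDegree_coeff_finSuccEquiv_add_le f 0 h
    omega

theorem exists_of_res_eq_zero {n : ℕ} {f : MvPolynomial (Fin (n + 1)) ℂ} (h : res n f = 0) :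
    ∃ g, f = X 0 * g := by
  rw [res_eq_coeff] at h
  obtain ⟨q, hq⟩ := Polynomial.X_dvd_iff.2 h
  refine ⟨(finSuccEquiv ℂ n).symm q, ?_⟩
  apply (finSuccEquiv ℂ n).injective
  rw [map_mul, finSuccEquiv_X_zero, AlgEquiv.apply_symm_apply, hq]

theorem totalDegree_X_mul {n : ℕ} {g : MvPolynomial (Fin (n + 1)) ℂ} (hg : g ≠ 0) :
    (X 0 * g).totalDegree = g.totalDegree + 1 := by
  rw [totalDegree_mul_of_isDomain (X_ne_zero 0) hg, totalDegree_X, add_comm]

/-- kernel of the restriction -/
theorem exists_of_res {n d : ℕ} {f : MvPolynomial (Fin (n + 1)) ℂ} (hf : f.totalDegree ≤ d + 1)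
    (h : res n f = 0) : ∃ g, g.totalDegree ≤ d ∧ f = X 0 * g := by
  obtain ⟨g, rfl⟩ := exists_of_res_eq_zero h
  by_cases hg : g = 0
  · exact ⟨0, by simp, by simp [hg]⟩
  · rw [totalDegree_X_mul hg] at hf
    exact ⟨g, by omega, rfl⟩

/-- restriction as a linear map of the spaces `Pol` -/
noncomputable def resL (n d : ℕ) : Pol (n + 1) d →ₗ[ℂ] Pol n d :=
  (res n).toLinearMap.restrict fun f hf => by
    rw [mem_Pol] at hf ⊢
    exact (res_totalDegree_le f).trans hf

@[simp] theorem resL_coe (n d : ℕ) (f : Pol (n + 1) d) :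
    ((resL n d f : Pol n d) : MvPolynomial (Fin n) ℂ) = res n f := rfl

/-- multiplication by `x₀` -/
noncomputable def mulX (n d : ℕ) : Pol (n + 1) d →ₗ[ℂ] Pol (n + 1) (d + 1) :=
  (LinearMap.mulLeft ℂ (X 0 : MvPolynomial (Fin (n + 1)) ℂ)).restrict fun f hf => by
    rw [mem_Pol] at hf ⊢
    rw [LinearMap.mulLeft_apply]
    refine (totalDegree_mul _ _).trans ?_
    rw [totalDegree_X]
    omega

@[simp] theorem mulX_coe (n d : ℕ) (f : Pol (n + 1) d) :
    ((mulX n d f : Pol (n + 1) (d + 1)) : MvPolynomial (Fin (n + 1)) ℂ) =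
      X 0 * (f : MvPolynomial (Fin (n + 1)) ℂ) := rfl

theorem mulX_injective (n d : ℕ) : Function.Injective (mulX n d) := by
  intro f g h
  have h1 : (X 0 : MvPolynomial (Fin (n + 1)) ℂ) * (f : MvPolynomial (Fin (n + 1)) ℂ) =
    X 0 * (g : MvPolynomial (Fin (n + 1)) ℂ) := congrArg Subtype.val h
  exact Subtype.ext (mul_left_cancel₀ (X_ne_zero 0) h1)

theorem ker_resL (n d : ℕ) : LinearMap.ker (resL n (d + 1)) = LinearMap.range (mulX n d) := by
  ext f
  constructor
  · intro hf
    have h1 : res n (f : MvPolynomial (Fin (n + 1)) ℂ) = 0 := congrArg Subtype.val hf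
    obtain ⟨g, hg, hfg⟩ := exists_of_res (mem_Pol.1 f.2) h1
    exact ⟨⟨g, mem_Pol.2 hg⟩, Subtype.ext hfg.symm⟩
  · rintro ⟨g, rfl⟩
    rw [LinearMap.mem_ker]
    apply Subtype.ext
    rw [resL_coe, mulX_coe, map_mul, res_X_zero, zero_mul]
    rfl

instance (n d : ℕ) : FiniteDimensional ℂ (Pol n d) := by
  have hfin : Set.Finite {m : Fin n →₀ ℕ | (m.sum fun _ e => e) ≤ d} := by
    refine Set.Finite.subset (Finset.finite_toSet (Finset.Iic (Finsupp.equivFunOnFinite.symm
      (fun _ => d) : Fin n →₀ ℕ))) fun m hm => ?_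
    rw [Finset.mem_coe, Finset.mem_Iic]
    intro i
    have : m i ≤ m.sum fun _ e => e := by
      by_cases hi : i ∈ m.support
      · exact Finset.single_le_sum (f := fun i => m i) (fun _ _ => Nat.zero_le _) hi
      · simp [Finsupp.notMem_support_iff.1 hi]
    exact this.trans hm
  have : Finite {m : Fin n →₀ ℕ | (m.sum fun _ e => e) ≤ d} := hfin
  exact Module.Finite.of_basis (basisRestrictSupport ℂ {m : Fin n →₀ ℕ | (m.sum fun _ e => e) ≤ d})

theorem finrank_Pol_const {n d : ℕ} (h : ∀ f ∈ Pol n d, ∃ c, f = C c) :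
    finrank ℂ (Pol n d) ≤ 1 := by
  have h1 : Pol n d ≤ LinearMap.range (Algebra.linearMap ℂ (MvPolynomial (Fin n) ℂ)) := by
    intro f hf
    obtain ⟨c, rfl⟩ := h f hf
    exact ⟨c, rfl⟩
  exact (Submodule.finrank_mono h1).trans ((LinearMap.finrank_range_le _).trans (by simp))

theorem finrank_Pol_le (n : ℕ) : ∀ d, finrank ℂ (Pol n d) ≤ NN n d := by
  induction n with
  | zero =>
    intro d
    rw [NN_zero_left]
    refine finrank_Pol_const fun f _ => ?_
    obtain ⟨c, hc⟩ := C_surjective (R := ℂ) (Fin 0) f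
    exact ⟨c, hc.symm⟩
  | succ n ihn =>
    intro d
    induction d with
    | zero =>
      rw [NN_zero_right]
      refine finrank_Pol_const fun f hf => ⟨f.coeff 0, ?_⟩
      exact totalDegree_eq_zero_iff_eq_C.1 (Nat.le_zero.1 (mem_Pol.1 hf))
    | succ d ihd =>
      have h := finrank_le_map_add_ker (resL n (d + 1)) ⊤
      rw [top_inf_eq, ker_resL, finrank_top] at h
      have h1 : finrank ℂ (LinearMap.range (mulX n d)) = finrank ℂ (Pol (n + 1) d) :=
        LinearMap.finrank_range_of_inj (mulX_injective n d)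
      have h2 : finrank ℂ ((⊤ : Submodule ℂ (Pol (n + 1) (d + 1))).map (resL n (d + 1))) ≤
          finrank ℂ (Pol n (d + 1)) := Submodule.finrank_le _
      have h3 := ihn (d + 1)
      rw [NN_succ]
      omega

end Pool.Agent.War
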