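import Pool.Agent.War.Pol

/-!
# Simultaneous Waring decompositions (MP_db021c_ag): statements   (helper46)

Paper proof: note 1540 of the team database (also `Pool/Agent/War/PAPER.md`).
`S_X` is proved by a theorem `X : S_X`, or `X (h : S_Y) .. : S_X` when it uses other modules.
-/

set_option autoImplicit false

open Module MvPolynomial

namespace Pool.Agent.War

/-- polynomials of degree `≤ d` vanishing at all the points `z i`, doubly at those with `i ∈ P` -/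
def Dbl (n d : ℕ) {I : Type} (P : Finset I) (z : I → Fin n → ℂ) : Submodule ℂ (Pol n d) where
  carrier := {f | (∀ i, eval (z i) (f : MvPolynomial (Fin n) ℂ) = 0) ∧
    ∀ i ∈ P, ∀ k, eval (z i) (pderiv k (f : MvPolynomial (Fin n) ℂ)) = 0}
  add_mem' := by
    rintro f g ⟨h1, h2⟩ ⟨k1, k2⟩
    refine ⟨fun i => ?_, fun i hi k => ?_⟩
    · rw [Submodule.coe_add, map_add, h1, k1, add_zero]
    · rw [Submodule.coe_add, map_add, map_add, h2 i hi, k2 i hi, add_zero]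
  zero_mem' := by simp
  smul_mem' := by
    rintro c f ⟨h1, h2⟩
    refine ⟨fun i => ?_, fun i hi k => ?_⟩
    · rw [Submodule.coe_smul, smul_eval, h1, mul_zero]
    · rw [Submodule.coe_smul, (pderiv k).map_smul, smul_eval, h2 i hi, mul_zero]

theorem mem_Dbl {n d : ℕ} {I : Type} {P : Finset I} {z : I → Fin n → ℂ} {f : Pol n d} :
    f ∈ Dbl n d P z ↔ (∀ i, eval (z i) (f : MvPolynomial (Fin n) ℂ) = 0) ∧
      ∀ i ∈ P, ∀ k, eval (z i) (pderiv k (f : MvPolynomial (Fin n) ℂ)) = 0 := Iff.rfl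

/-- evaluation at a point of `Pol n d` -/
noncomputable def ev (n d : ℕ) (z : Fin n → ℂ) : Pol n d →ₗ[ℂ] ℂ :=
  (MvPolynomial.aeval z : MvPolynomial (Fin n) ℂ →ₐ[ℂ] ℂ).toLinearMap.comp (Pol n d).subtype

/-- evaluation of a partial derivative -/
noncomputable def dv (n d : ℕ) (k : Fin n) (z : Fin n → ℂ) : Pol n d →ₗ[ℂ] ℂ :=
  (MvPolynomial.aeval z : MvPolynomial (Fin n) ℂ →ₐ[ℂ] ℂ).toLinearMap.comp
    ((pderiv k).toLinearMap.comp (Pol n d).subtype)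

theorem ev_apply {n d : ℕ} (z : Fin n → ℂ) (f : Pol n d) :
    ev n d z f = eval z (f : MvPolynomial (Fin n) ℂ) := by
  simp [ev, MvPolynomial.aeval_eq_eval]

theorem dv_apply {n d : ℕ} (k : Fin n) (z : Fin n → ℂ) (f : Pol n d) :
    dv n d k z f = eval z (pderiv k (f : MvPolynomial (Fin n) ℂ)) := by
  simp [dv, MvPolynomial.aeval_eq_eval]

/-- the point `i` of a configuration -/
def pt {n : ℕ} {I : Type} (i : I) : (I → Fin n → ℂ) →ₗ[ℂ] (Fin n → ℂ) := LinearMap.proj i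

theorem LP_coord {n : ℕ} (k : Fin n) : LP (K := ℂ) (X := Fin n → ℂ) fun z => z k := by
  have h := LP.linear (K := ℂ) (X := Fin n → ℂ) (LinearMap.proj k : (Fin n → ℂ) →ₗ[ℂ] ℂ)
  exact h

theorem LP_eval {n : ℕ} (f : MvPolynomial (Fin n) ℂ) :
    LP (K := ℂ) (X := Fin n → ℂ) fun z => eval z f := by
  have h := LP.eval (K := ℂ) (X := Fin n → ℂ) f (Z := fun k z => z k) LP_coord
  exact h

theorem PK_Dbl (n d : ℕ) {I : Type} [Finite I] (P : Finset I) :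
    PK fun z : I → Fin n → ℂ => Dbl n d P z := by
  have h1 : PK fun z : I → Fin n → ℂ => ⨅ i : I, LinearMap.ker (ev n d (z i)) := by
    refine PK.iInf fun i => PK.one (φ := fun z : I → Fin n → ℂ => ev n d (z i)) fun f => ?_
    simp only [ev_apply]
    exact (LP_eval (f : MvPolynomial (Fin n) ℂ)).comp_linear (pt i)
  have h2 : PK fun z : I → Fin n → ℂ => ⨅ q : {i // i ∈ P} × Fin n,
      LinearMap.ker (dv n d q.2 (z q.1.1)) := by
    refine PK.iInf fun q => PK.one (φ := fun z : I → Fin n → ℂ => dv n d q.2 (z q.1.1))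
      fun f => ?_
    simp only [dv_apply]
    exact (LP_eval (pderiv q.2 (f : MvPolynomial (Fin n) ℂ))).comp_linear (pt q.1.1)
  refine (h1.inf h2).congr fun z => ?_
  ext f
  simp only [Submodule.mem_inf, Submodule.mem_iInf, LinearMap.mem_ker, ev_apply, dv_apply, mem_Dbl]
  constructor
  · rintro ⟨k1, k2⟩
    exact ⟨k1, fun i hi k => k2 (⟨i, hi⟩, k)⟩
  · rintro ⟨k1, k2⟩
    exact ⟨k1, fun q => k2 q.1.1 q.1.2 q.2⟩

/-- full points `(z i, a i)` and simple points `y i` kill `P_{n,d}^γ` -/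
def Kill (n d : ℕ) {α β γ : Type} [Fintype γ] (z : α → Fin n → ℂ) (a : α → γ → ℂ)
    (y : β → Fin n → ℂ) : Prop :=
  ∀ f : γ → MvPolynomial (Fin n) ℂ, (∀ j, (f j).totalDegree ≤ d) →
    (∀ i j, eval (z i) (f j) = 0) →
    (∀ i k, ∑ j, a i j * eval (z i) (pderiv k (f j)) = 0) →
    (∀ i j, eval (y i) (f j) = 0) → ∀ j, f j = 0

/-- block lemma for `b` forms, `μ = N - h`: `m = ⌈bμ/n⌉` full points and `N - μ - m` simple ones -/
def Block (n d b μ : ℕ) : Prop :=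
  ∃ (z : Fin ((b * μ + n - 1) / n) → Fin n → ℂ) (a : Fin ((b * μ + n - 1) / n) → Fin b → ℂ)
    (y : Fin (NN n d - μ - (b * μ + n - 1) / n) → Fin n → ℂ), Kill n d z a y

/-! ## The modules -/

/-- (1) weak Alexander-Hirschowitz -/
def S_WAH : Prop := ∀ n d p : ℕ, 1 ≤ n → 2 * n ≤ d → (n + 2) * p ≤ NN n (d - 2 * n) →
  ∃ z : Fin p → Fin n → ℂ, finrank ℂ (Dbl n d Finset.univ z) + (n + 1) * p ≤ NN n d

/-- (2) scalar lemma: double points `z i`, `i ∈ P`, and simple points `z i`, `i ∉ P` -/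
def S_SC : Prop := ∀ (n d : ℕ) (I : Type) [Fintype I] (P : Finset I), 1 ≤ n →
  (P.card = 0 ∨ (2 * n ≤ d ∧ (n + 2) * P.card ≤ NN n (d - 2 * n))) →
  Gen ℂ fun z : I → Fin n → ℂ =>
    finrank ℂ (Dbl n d P z) ≤ NN n d - (n * P.card + Fintype.card I)

/-- arithmetic -/
def S_AR : Prop := ∀ n d : ℕ, 2 ≤ n → n ^ 3 + 60 ≤ d →
  (n + 2) * NN n d ≤ (2 * n + 1) * NN n (d - 2 * n - 2) ∧
  (2 * n + 1) * NN (n - 1) d ≤ NN n d ∧ 2 * n ^ 2 ≤ NN (n - 1) (d - 2 * n - 2)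

/-- hypotheses of the block lemma -/
def BH (n d b μ : ℕ) : Prop :=
  2 ≤ n ∧ n ^ 3 + 60 ≤ d ∧ 1 ≤ b ∧ b ≤ n ∧ n ≤ μ ∧ (2 * n + 1) * μ ≤ n * NN n d

/-- (3), first case -/
def S_C0 : Prop := ∀ n d b μ : ℕ, BH n d b μ → μ % n = 0 → Block n d b μ

/-- (3), second case -/
def S_C1 : Prop := ∀ n d b μ : ℕ, BH n d b μ → μ % n ≠ 0 → n ≤ μ / n + μ % n → Block n d b μ

/-- (3), third case: points in `X` (moment curve graph) impose independent conditions.
`E` edges; edge `e` joins `z (src e)` and `w (tgt e)`, all on the moment curve. -/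
def S_X : Prop := ∀ (n d m μ E : ℕ) (src : Fin E → Fin m) (tgt : Fin E → Fin μ), 3 ≤ n →
  Function.Surjective src → Function.Surjective tgt →
  (∀ e e', src e = src e' → tgt e = tgt e' → e = e') →
  (∀ i, (Finset.univ.filter fun e => src e = i).card ≤ n) →
  (∀ k, (Finset.univ.filter fun e => tgt e = k).card ≤ n) →
  E + 1 ≤ d → m + μ ≤ d + 1 →
  ∀ (u : Fin m ⊕ Fin μ → ℂ) (τ : Fin (d - 1) → ℂ), Function.Injective u → Function.Injective τ →
  (∀ l, τ l ≠ 0 ∧ τ l ≠ 1) →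
  ∀ c : (Fin m ⊕ Fin μ) ⊕ (Fin E × Fin (d - 1)) → ℂ, ∃ f : Pol n d,
    (∀ v, eval (fun k : Fin n => u v ^ (k.val + 1)) (f : MvPolynomial (Fin n) ℂ) =
      c (Sum.inl v)) ∧
    ∀ e l, eval (fun k : Fin n => (1 - τ l) * u (Sum.inl (src e)) ^ (k.val + 1) +
      τ l * u (Sum.inr (tgt e)) ^ (k.val + 1)) (f : MvPolynomial (Fin n) ℂ) = c (Sum.inr (e, l))

/-- (3), third case -/
def S_C2 : Prop := ∀ n d b μ : ℕ, BH n d b μ → μ % n ≠ 0 → μ / n + μ % n < n → Block n d b μ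

/-- (3) -/
def S_BLK : Prop := ∀ n d b μ : ℕ, BH n d b μ → Block n d b μ

/-- (4) -/
def S_TOP : Prop := ∀ n d s h : ℕ, 2 ≤ n → n ^ 3 + 60 ≤ d → n + 1 ≤ s → s ≤ h → h < NN n d →
  s * NN n d ≤ h * (n + s) →
  ∃ (z : Fin h → Fin n → ℂ) (a : Fin h → Fin s → ℂ) (y : Fin 0 → Fin n → ℂ), Kill n d z a y

end Pool.Agent.War
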