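import Pool.Agent.War.Stmts
import Pool.Agent.War.AR

/-!
# Simultaneous Waring decompositions (MP_db021c_ag): from the block lemma to the theorem   (helper7)
-/

set_option autoImplicit false

open Module MvPolynomial

namespace Pool.Agent.War

/-- common zeros at all the points, derivative conditions at the points `ι i` -/
def KG (n d : ℕ) {h : ℕ} {α γ : Type} [Fintype γ] (ι : α → Fin h) (a : α → γ → ℂ)
    (z : Fin h → Fin n → ℂ) : Prop :=
  ∀ f : γ → MvPolynomial (Fin n) ℂ, (∀ j, (f j).totalDegree ≤ d) →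
    (∀ i j, eval (z i) (f j) = 0) →
    (∀ i k, ∑ j, a i j * eval (z (ι i)) (pderiv k (f j)) = 0) → ∀ j, f j = 0

/-- all the forms vanish at all the points -/
noncomputable def KZ1 (n d : ℕ) {h : ℕ} (γ : Type) (z : Fin h → Fin n → ℂ) :
    Submodule ℂ (γ → Pol n d) :=
  ⨅ q : Fin h × γ, LinearMap.ker ((ev n d (z q.1)).comp (LinearMap.proj q.2))

/-- the derivative conditions -/
noncomputable def KZ2 (n d : ℕ) {h : ℕ} {α γ : Type} [Fintype γ] (ι : α → Fin h) (a : α → γ → ℂ)
    (z : Fin h → Fin n → ℂ) : Submodule ℂ (γ → Pol n d) :=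
  ⨅ q : α × Fin n, LinearMap.ker (∑ j, a q.1 j •
      (dv n d q.2 (z (ι q.1))).comp (LinearMap.proj j))

theorem mem_KZ1 {n d h : ℕ} {γ : Type} (z : Fin h → Fin n → ℂ) (f : γ → Pol n d) :
    f ∈ KZ1 n d γ z ↔ ∀ i j, eval (z i) (f j : MvPolynomial (Fin n) ℂ) = 0 := by
  simp only [KZ1, Submodule.mem_iInf, LinearMap.mem_ker, LinearMap.comp_apply,
      LinearMap.proj_apply, ev_apply, Prod.forall]

theorem mem_KZ2 {n d h : ℕ} {α γ : Type} [Fintype γ] (ι : α → Fin h) (a : α → γ → ℂ)
    (z : Fin h → Fin n → ℂ) (f : γ → Pol n d) :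
    f ∈ KZ2 n d ι a z ↔
      ∀ i k, ∑ j, a i j * eval (z (ι i)) (pderiv k (f j : MvPolynomial (Fin n) ℂ)) = 0 := by
  simp only [KZ2, Submodule.mem_iInf, LinearMap.mem_ker,
      LinearMap.sum_apply, LinearMap.smul_apply, LinearMap.comp_apply,
      LinearMap.proj_apply, dv_apply, smul_eq_mul, Prod.forall]

theorem PK_KZ1 (n d h : ℕ) (γ : Type) [Finite γ] :
    PK fun z : Fin h → Fin n → ℂ => KZ1 n d γ z := by
  refine PK.iInf fun q => PK.one (φ := fun z : Fin h → Fin n → ℂ =>
    (ev n d (z q.1)).comp (LinearMap.proj q.2 : (γ → Pol n d) →ₗ[ℂ] Pol n d)) fun f => ?_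
  simp only [LinearMap.comp_apply, LinearMap.proj_apply, ev_apply]
  exact (LP_eval (f q.2 : MvPolynomial (Fin n) ℂ)).comp_linear (pt q.1)

theorem PK_KZ2 (n d h : ℕ) {α γ : Type} [Finite α] [Fintype γ] (ι : α → Fin h)
    (a : α → γ → ℂ) : PK fun z : Fin h → Fin n → ℂ => KZ2 n d ι a z := by
  refine PK.iInf fun q => PK.one (φ := fun z : Fin h → Fin n → ℂ => ∑ j, a q.1 j •
    (dv n d q.2 (z (ι q.1))).comp
      (LinearMap.proj j : (γ → Pol n d) →ₗ[ℂ] Pol n d)) fun f => ?_
  simp only [LinearMap.sum_apply, LinearMap.smul_apply, LinearMap.comp_apply,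
    LinearMap.proj_apply, dv_apply, smul_eq_mul]
  exact LP.sum _ fun j _ => (LP.const _).mul
    ((LP_eval (pderiv q.2 (f j : MvPolynomial (Fin n) ℂ))).comp_linear (pt (ι q.1)))

theorem KG_gen {n d h : ℕ} {α β γ : Type} [Fintype α] [Fintype γ] (e : α ⊕ β ≃ Fin h)
    (z0 : α → Fin n → ℂ) (a : α → γ → ℂ) (y0 : β → Fin n → ℂ) (hK : Kill n d z0 a y0) :
    Gen ℂ fun z : Fin h → Fin n → ℂ => KG n d (fun i => e (Sum.inl i)) a z := by
  have hPK := (PK_KZ1 n d h γ).inf (PK_KZ2 n d h (fun i => e (Sum.inl i)) a)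
  let zz : Fin h → Fin n → ℂ := fun i => Sum.elim z0 y0 (e.symm i)
  have hz1 : ∀ i, zz (e (Sum.inl i)) = z0 i := fun i => by simp [zz]
  have hz2 : ∀ i, zz (e (Sum.inr i)) = y0 i := fun i => by simp [zz]
  have h0 : KZ1 n d γ zz ⊓ KZ2 n d (fun i => e (Sum.inl i)) a zz = ⊥ := by
    rw [Submodule.eq_bot_iff]
    intro f hf
    obtain ⟨h1, h2⟩ := Submodule.mem_inf.1 hf
    rw [mem_KZ1] at h1
    rw [mem_KZ2] at h2
    have h3 := hK (fun j => (f j : MvPolynomial (Fin n) ℂ)) (fun j => mem_Pol.1 (f j).2)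
      (fun i j => by rw [← hz1 i]; exact h1 _ j)
      (fun i k => by rw [← hz1 i]; exact h2 i k)
      (fun i j => by rw [← hz2 i]; exact h1 _ j)
    funext j
    exact Subtype.ext (h3 j)
  refine (hPK.gen_bot h0).mono fun z hz f hd h1 h2 j => ?_
  have h3 : (fun j => (⟨f j, mem_Pol.2 (hd j)⟩ : Pol n d)) ∈
      KZ1 n d γ z ⊓ KZ2 n d (fun i => e (Sum.inl i)) a z := by
    rw [Submodule.mem_inf, mem_KZ1, mem_KZ2]
    exact ⟨h1, h2⟩
  rw [hz, Submodule.mem_bot] at h3
  exact congrArg Subtype.val (congrFun h3 j)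

theorem Kill_equiv {n d : ℕ} {α β γ γ' : Type} [Fintype γ] [Fintype γ'] (e : γ' ≃ γ)
    {z : α → Fin n → ℂ} {a : α → γ → ℂ} {y : β → Fin n → ℂ} (hK : Kill n d z a y) :
    Kill n d z (fun i j => a i (e j)) y := by
  intro f hd h1 h2 h3 j
  have h4 := hK (fun j => f (e.symm j)) (fun j => hd _) (fun i j => h1 i _)
    (fun i k => by
      rw [← h2 i k, ← e.sum_comp]
      simp) (fun i j => h3 i _) (e j)
  simpa using h4

/-- assembly of the blocks -/
theorem asm {n d h : ℕ} {T : Type} [Fintype T] (b m c : T → ℕ) (hc : ∀ t, m t + c t = h)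
    (hm : ∑ t, m t ≤ h)
    (H : ∀ t, ∃ (z : Fin (m t) → Fin n → ℂ) (a : Fin (m t) → Fin (b t) → ℂ)
      (y : Fin (c t) → Fin n → ℂ), Kill n d z a y) :
    ∃ (z : Fin h → Fin n → ℂ) (a : Fin h → ((t : T) × Fin (b t)) → ℂ) (y : Fin 0 → Fin n → ℂ),
      Kill n d z a y := by
  classical
  choose z0 a0 y0 hK using H
  obtain ⟨ι⟩ : Nonempty (((t : T) × Fin (m t)) ↪ Fin h) := by
    refine Function.Embedding.nonempty_of_card_le ?_
    simpa using hm
  -- extend to equivalences
  have hE : ∀ t, ∃ e : Fin (m t) ⊕ Fin (c t) ≃ Fin h, ∀ i, e (Sum.inl i) = ι ⟨t, i⟩ := by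
    intro t
    have hinj : Function.Injective fun i : Fin (m t) => ι ⟨t, i⟩ := by
      intro i i' hii
      have := ι.injective hii
      simpa using this
    let R : Set (Fin h) := Set.range fun i : Fin (m t) => ι ⟨t, i⟩
    have e1 : Fin (m t) ≃ R := Equiv.ofInjective _ hinj
    have hcard : Fintype.card (↥(Rᶜ) : Type) = c t := by
      rw [Fintype.card_compl_set, Fintype.card_fin, ← Fintype.card_congr e1, Fintype.card_fin,
        ← hc t]
      omega
    have e2 : Fin (c t) ≃ ↥(Rᶜ) := (Fintype.equivFinOfCardEq hcard).symm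
    refine ⟨(Equiv.sumCongr (Equiv.ofInjective _ hinj) e2).trans (Equiv.Set.sumCompl R), ?_⟩
    intro i
    simp [R]
  choose e he using hE
  obtain ⟨z, hz⟩ := (Gen.forall fun t => KG_gen (e t) (z0 t) (a0 t) (y0 t) (hK t)).exists
  let A : Fin h → ((t : T) × Fin (b t)) → ℂ := fun i q =>
    ∑ i' : Fin (m q.1), if ι ⟨q.1, i'⟩ = i then a0 q.1 i' q.2 else 0
  have hA1 : ∀ t i j, A (ι ⟨t, i⟩) ⟨t, j⟩ = a0 t i j := by
    intro t i j
    show (∑ i' : Fin (m t), if ι ⟨t, i'⟩ = ι ⟨t, i⟩ then a0 t i' j else 0) = a0 t i j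
    rw [Finset.sum_eq_single i]
    · simp
    · intro i' _ hi'
      rw [if_neg]
      intro hh
      have := ι.injective hh
      simp at this
      exact hi' this
    · simp
  have hA2 : ∀ t t' i j, t' ≠ t → A (ι ⟨t, i⟩) ⟨t', j⟩ = 0 := by
    intro t t' i j ht'
    show (∑ i' : Fin (m t'), if ι ⟨t', i'⟩ = ι ⟨t, i⟩ then a0 t' i' j else 0) = 0
    refine Finset.sum_eq_zero fun i' _ => ?_
    rw [if_neg]
    intro hh
    exact ht' (congrArg Sigma.fst (ι.injective hh))
  refine ⟨z, A, fun i => i.elim0, ?_⟩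
  rintro f hd h1 h2 - ⟨t, j⟩
  refine hz t (fun j => f ⟨t, j⟩) (fun j => hd _) (fun i j => h1 i _) (fun i k => ?_) j
  have h3 := h2 (ι ⟨t, i⟩) k
  rw [Fintype.sum_sigma, Finset.sum_eq_single t] at h3
  · rw [← h3]
    refine Finset.sum_congr rfl fun j _ => ?_
    rw [hA1]
    simp only [he]
  · intro t' _ ht'
    refine Finset.sum_eq_zero fun j _ => ?_
    rw [hA2 _ _ _ _ ht', zero_mul]
  · simp

theorem TOP (hB : S_BLK) (hSC : S_SC) : S_TOP := by
  intro n d s h hn hd hs hsh hN hmain
  obtain ⟨μ, hμ⟩ : ∃ μ, NN n d = h + μ := ⟨NN n d - h, by omega⟩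
  have hμ0 : 0 < μ := by omega
  have h1 : s * μ ≤ n * h := by
    rw [hμ] at hmain
    nlinarith
  have hn3 : 4 * n ≤ n ^ 3 := by
    have : n ^ 3 = n * n * n := by ring
    rw [this]
    nlinarith [Nat.mul_le_mul hn hn]
  rcases Nat.lt_or_ge μ n with hlt | hge
  · -- one double point for each form
    obtain ⟨z, a, y, hK⟩ := asm (n := n) (d := d) (h := h) (T := Fin s) (fun _ => 1) (fun _ => 1)
      (fun _ => h - 1) (fun _ => by omega) (by simpa using hsh) (fun _ => by
        obtain ⟨z, hz⟩ := (hSC n d (Fin 1 ⊕ Fin (h - 1)) {Sum.inl 0} (by omega) (Or.inr ⟨by omega, by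
          have h2 := AR_ge (n - 1) (d - 2 * n)
          rw [Nat.sub_add_cancel (by omega)] at h2
          rw [Finset.card_singleton]
          omega⟩)).exists
        have hz0 : Dbl n d {Sum.inl 0} z = ⊥ := by
          rw [← Submodule.finrank_eq_zero]
          have : NN n d - (n * ({Sum.inl 0} : Finset (Fin 1 ⊕ Fin (h - 1))).card +
              Fintype.card (Fin 1 ⊕ Fin (h - 1))) = 0 := by
            rw [Finset.card_singleton, Fintype.card_sum, Fintype.card_fin, Fintype.card_fin]
            omega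
          omega
        refine ⟨fun i => z (Sum.inl i), fun _ _ => 1, fun i => z (Sum.inr i), ?_⟩
        intro f hdf k1 k2 k3 j
        have hj : j = 0 := Subsingleton.elim _ _
        subst hj
        have hm : (⟨f 0, mem_Pol.2 (hdf 0)⟩ : Pol n d) ∈ Dbl n d {Sum.inl 0} z := by
          rw [mem_Dbl]
          refine ⟨?_, ?_⟩
          · rintro (i | i)
            · exact k1 i 0
            · exact k3 i 0
          · intro i hi k
            rw [Finset.mem_singleton] at hi
            subst hi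
            simpa using k2 0 k
        rw [hz0, Submodule.mem_bot] at hm
        exact congrArg Subtype.val hm)
    have hcard : Fintype.card ((t : Fin s) × Fin 1) = s := by simp
    exact ⟨z, _, y, Kill_equiv (Fintype.equivFinOfCardEq hcard).symm hK⟩
  · -- blocks
    have hsn := Nat.div_add_mod s n
    set k := s / n with hk
    set b' := s % n with hb'
    have hb'n : b' < n := Nat.mod_lt _ (by omega)
    let b : Option (Fin k) → ℕ := fun t => t.elim b' fun _ => n
    let m : Option (Fin k) → ℕ := fun t => (b t * μ + n - 1) / n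
    have hmn : ∀ i : Fin k, m (some i) = μ := by
      intro i
      show (n * μ + n - 1) / n = μ
      have : n * μ + n - 1 = (n - 1) + n * μ := by omega
      rw [this, Nat.add_mul_div_left _ _ (by omega), Nat.div_eq_of_lt (by omega), zero_add]
    have hkμ : n * (k * μ) + b' * μ ≤ n * h := by
      have : n * (k * μ) + b' * μ = (n * k + b') * μ := by ring
      rw [this, hsn]
      exact h1
    have hkh : k * μ ≤ h := by
      have : n * (k * μ) ≤ n * h := by omega
      exact Nat.le_of_mul_le_mul_left this (by omega)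
    have hm0 : m none ≤ h - k * μ := by
      show (b' * μ + n - 1) / n ≤ h - k * μ
      have h2 : n * (h - k * μ) = n * h - n * (k * μ) := Nat.mul_sub _ _ _
      have h3 : b' * μ + n - 1 < n * ((h - k * μ) + 1) := by
        rw [mul_add, h2]
        omega
      rw [mul_comm n] at h3
      exact Nat.lt_succ_iff.1 ((Nat.div_lt_iff_lt_mul (by omega)).2 h3)
    have hsum : ∑ t, m t ≤ h := by
      rw [Fintype.sum_option]
      simp only [hmn, Finset.sum_const, Finset.card_univ, Fintype.card_fin, smul_eq_mul]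
      omega
    have hmle : ∀ t, m t ≤ h := fun t =>
      (Finset.single_le_sum (f := m) (fun _ _ => Nat.zero_le _) (Finset.mem_univ t)).trans hsum
    have hBH : ∀ b'', 1 ≤ b'' → b'' ≤ n → BH n d b'' μ := by
      intro b'' hb1 hb2
      refine ⟨hn, hd, hb1, hb2, hge, ?_⟩
      rw [hμ]
      nlinarith
    obtain ⟨z, a, y, hK⟩ := asm (n := n) (d := d) (h := h) b m (fun t => NN n d - μ - m t)
      (fun t => by
        have := hmle t
        omega) hsum (fun t => by
        cases t with
        | none =>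
          rcases Nat.eq_zero_or_pos b' with h0 | h0
          · refine ⟨fun _ _ => 0, fun _ _ => 0, fun _ _ => 0, ?_⟩
            intro f _ _ _ _ j
            exact absurd j.2 (by simp [b, h0])
          · exact hB n d b' μ (hBH b' h0 hb'n.le)
        | some i => exact hB n d n μ (hBH n (by omega) le_rfl))
    have hcard : Fintype.card ((t : Option (Fin k)) × Fin (b t)) = s := by
      simp only [Fintype.card_sigma, Fintype.card_fin]
      rw [Fintype.sum_option]
      simp only [b, Option.elim, Finset.sum_const, Finset.card_univ, Fintype.card_fin,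
        smul_eq_mul]
      rw [← hsn]
      ring
    exact ⟨z, _, y, Kill_equiv (Fintype.equivFinOfCardEq hcard).symm hK⟩

end Pool.Agent.War
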