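import Mathlib

/-!
# Simultaneous Waring decompositions (MP_db021c_ag): toolkit   (helper46)

Functions polynomial along lines, generic properties, families of subspaces cut out by functionals
depending polynomially on a parameter, semicontinuity, general members of a family of functionals.
-/

set_option autoImplicit false

open Module

namespace Pool.Agent.War

section LP

variable {K : Type*} [Field K] {X Y : Type*} [AddCommGroup X] [Module K X] [AddCommGroup Y]
  [Module K Y]

/-- functions which are polynomial along every line -/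
def LP (F : X → K) : Prop :=
  ∀ x y : X, ∃ p : Polynomial K, ∀ t : K, F (x + t • y) = p.eval t

theorem LP.const (c : K) : LP (fun _ : X => c) := fun _ _ => ⟨Polynomial.C c, by simp⟩

theorem LP.add {F G : X → K} (hF : LP F) (hG : LP G) : LP fun x => F x + G x := by
  intro x y
  obtain ⟨p, hp⟩ := hF x y
  obtain ⟨q, hq⟩ := hG x y
  exact ⟨p + q, fun t => by simp [hp, hq]⟩

theorem LP.mul {F G : X → K} (hF : LP F) (hG : LP G) : LP fun x => F x * G x := by
  intro x y
  obtain ⟨p, hp⟩ := hF x y
  obtain ⟨q, hq⟩ := hG x y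
  exact ⟨p * q, fun t => by simp [hp, hq]⟩

theorem LP.sum {ι : Type*} (s : Finset ι) {F : ι → X → K} (hF : ∀ i ∈ s, LP (F i)) :
    LP fun x => ∑ i ∈ s, F i x := by
  classical
  induction s using Finset.induction_on with
  | empty => simpa using LP.const (X := X) (0 : K)
  | insert a s ha ih =>
    simp only [Finset.sum_insert ha]
    exact (hF a (by simp)).add (ih fun i hi => hF i (by simp [hi]))

theorem LP.prod {ι : Type*} (s : Finset ι) {F : ι → X → K} (hF : ∀ i ∈ s, LP (F i)) :
    LP fun x => ∏ i ∈ s, F i x := by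
  classical
  induction s using Finset.induction_on with
  | empty => simpa using LP.const (X := X) (1 : K)
  | insert a s ha ih =>
    simp only [Finset.prod_insert ha]
    exact (hF a (by simp)).mul (ih fun i hi => hF i (by simp [hi]))

theorem LP.linear (φ : X →ₗ[K] K) : LP fun x => φ x := by
  intro x y
  refine ⟨Polynomial.C (φ x) + Polynomial.C (φ y) * Polynomial.X, fun t => ?_⟩
  change φ (x + t • y) = _
  rw [map_add, map_smul, smul_eq_mul, Polynomial.eval_add, Polynomial.eval_mul,
    Polynomial.eval_C, Polynomial.eval_C, Polynomial.eval_X, mul_comm]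

theorem LP.comp_affine {F : X → K} (hF : LP F) (L : Y →ₗ[K] X) (c : X) :
    LP fun y => F (L y + c) := by
  intro x y
  obtain ⟨p, hp⟩ := hF (L x + c) (L y)
  refine ⟨p, fun t => ?_⟩
  rw [← hp]
  change F (L (x + t • y) + c) = _
  congr 1
  rw [map_add, map_smul, add_right_comm]

theorem LP.comp_linear {F : X → K} (hF : LP F) (L : Y →ₗ[K] X) : LP fun y => F (L y) := by
  simpa using hF.comp_affine L 0

/-- evaluation of a polynomial at a point with `LP` coordinates -/
theorem LP.eval {σ : Type*} (f : MvPolynomial σ K) {Z : σ → X → K} (hZ : ∀ k, LP (Z k)) :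
    LP fun x => MvPolynomial.eval (fun k => Z k x) f := by
  induction f using MvPolynomial.induction_on with
  | C a => simpa using LP.const a
  | add p q hp hq => simpa using hp.add hq
  | mul_X p k hp => simpa using hp.mul (hZ k)

theorem LP.det {n : Type*} [Fintype n] [DecidableEq n] {M : X → Matrix n n K}
    (hM : ∀ i j, LP fun x => M x i j) : LP fun x => (M x).det := by
  simp only [Matrix.det_apply']
  refine LP.sum _ fun σ _ => ?_
  exact (LP.const _).mul (LP.prod _ fun i _ => hM _ _)

end LP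

section Gen

variable (K : Type*) [Field K] {X Y : Type*} [AddCommGroup X] [Module K X] [AddCommGroup Y]
  [Module K Y]

/-- generic properties: true where some nonzero `LP` function does not vanish -/
def Gen (P : X → Prop) : Prop :=
  ∃ F : X → K, LP F ∧ (∃ x, F x ≠ 0) ∧ ∀ x, F x ≠ 0 → P x

variable {K}

theorem Gen.exists {P : X → Prop} (h : Gen K P) : ∃ x, P x := by
  obtain ⟨F, -, ⟨x, hx⟩, hF⟩ := h
  exact ⟨x, hF x hx⟩

theorem Gen.mono {P Q : X → Prop} (h : Gen K P) (hPQ : ∀ x, P x → Q x) : Gen K Q := by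
  obtain ⟨F, h1, h2, h3⟩ := h
  exact ⟨F, h1, h2, fun x hx => hPQ x (h3 x hx)⟩

theorem Gen.true : Gen K (fun _ : X => True) :=
  ⟨fun _ => 1, LP.const 1, ⟨0, one_ne_zero⟩, fun _ _ => trivial⟩

theorem Gen.of_forall {P : X → Prop} (h : ∀ x, P x) : Gen K P := Gen.true.mono fun x _ => h x

theorem Gen.and [Infinite K] {P Q : X → Prop} (hP : Gen K P) (hQ : Gen K Q) :
    Gen K fun x => P x ∧ Q x := by
  obtain ⟨F, F1, ⟨x, hx⟩, F3⟩ := hP
  obtain ⟨G, G1, ⟨y, hy⟩, G3⟩ := hQ
  refine ⟨fun z => F z * G z, F1.mul G1, ?_, fun z hz => ⟨F3 z (left_ne_zero_of_mul hz),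
    G3 z (right_ne_zero_of_mul hz)⟩⟩
  obtain ⟨p, hp⟩ := F1 x (y - x)
  obtain ⟨q, hq⟩ := G1 x (y - x)
  have hp0 : p ≠ 0 := by
    rintro rfl
    have := hp 0
    simp at this
    exact hx this
  have hq0 : q ≠ 0 := by
    rintro rfl
    have := hq 1
    simp at this
    exact hy this
  obtain ⟨t, ht⟩ : ∃ t, (p * q).eval t ≠ 0 := by
    by_contra hc
    push Not at hc
    exact mul_ne_zero hp0 hq0 (Polynomial.funext fun t => by simpa using hc t)
  refine ⟨x + t • (y - x), ?_⟩
  change F (x + t • (y - x)) * G (x + t • (y - x)) ≠ 0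
  rw [hp, hq, ← Polynomial.eval_mul]
  exact ht

theorem Gen.finset [Infinite K] {ι : Type*} (s : Finset ι) {P : ι → X → Prop}
    (h : ∀ i ∈ s, Gen K (P i)) : Gen K fun x => ∀ i ∈ s, P i x := by
  classical
  induction s using Finset.induction_on with
  | empty => exact Gen.of_forall (by simp)
  | insert a s ha ih =>
    refine ((h a (by simp)).and (ih fun i hi => h i (by simp [hi]))).mono ?_
    rintro x ⟨h1, h2⟩ i hi
    rcases Finset.mem_insert.1 hi with rfl | hi
    · exact h1
    · exact h2 i hi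

theorem Gen.forall [Infinite K] {ι : Type*} [Finite ι] {P : ι → X → Prop}
    (h : ∀ i, Gen K (P i)) : Gen K fun x => ∀ i, P i x := by
  cases nonempty_fintype ι
  exact (Gen.finset Finset.univ fun i _ => h i).mono fun x hx i => hx i (Finset.mem_univ i)

theorem Gen.comp {P : X → Prop} (h : Gen K P) (L : Y →ₗ[K] X) (hL : Function.Surjective L) :
    Gen K fun y => P (L y) := by
  obtain ⟨F, h1, ⟨x, hx⟩, h3⟩ := h
  obtain ⟨y, rfl⟩ := hL x
  exact ⟨fun y => F (L y), h1.comp_linear L, ⟨y, hx⟩, fun y hy => h3 _ hy⟩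

/-- nonvanishing of an `LP` function -/
theorem Gen.ne {F : X → K} (hF : LP F) (x : X) (hx : F x ≠ 0) : Gen K fun x => F x ≠ 0 :=
  ⟨F, hF, ⟨x, hx⟩, fun _ h => h⟩

end Gen

section PK

variable {K : Type*} [Field K] {X Y : Type*} [AddCommGroup X] [Module K X] [AddCommGroup Y]
  [Module K Y] {V : Type*} [AddCommGroup V] [Module K V]

/-- families of subspaces cut out by finitely many functionals depending polynomially on the
parameter -/
def PK (Z : X → Submodule K V) : Prop :=
  ∃ (ι : Type) (_ : Fintype ι) (φ : ι → X → V →ₗ[K] K),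
    (∀ i v, LP fun x => φ i x v) ∧ ∀ x v, v ∈ Z x ↔ ∀ i, φ i x v = 0

theorem PK.inf {Z W : X → Submodule K V} (hZ : PK Z) (hW : PK W) : PK fun x => Z x ⊓ W x := by
  obtain ⟨ι, _, φ, h1, h2⟩ := hZ
  obtain ⟨κ, _, ψ, k1, k2⟩ := hW
  refine ⟨ι ⊕ κ, inferInstance, Sum.elim φ ψ, ?_, fun x v => ?_⟩
  · rintro (i | i) v
    · exact h1 i v
    · exact k1 i v
  · rw [Submodule.mem_inf, h2, k2]
    simp

theorem PK.top : PK fun _ : X => (⊤ : Submodule K V) :=
  ⟨Empty, inferInstance, fun i => i.elim, fun i => i.elim, fun x v => by simp⟩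

theorem PK.iInf {α : Type} [Finite α] {Z : α → X → Submodule K V} (hZ : ∀ a, PK (Z a)) :
    PK fun x => ⨅ a, Z a x := by
  cases nonempty_fintype α
  choose ι hι φ h1 h2 using hZ
  refine ⟨(a : α) × ι a, inferInstance, fun p => φ p.1 p.2, fun p v => h1 p.1 p.2 v,
    fun x v => ?_⟩
  rw [Submodule.mem_iInf]
  constructor
  · rintro h ⟨a, i⟩
    exact (h2 a x v).1 (h a) i
  · intro h a
    exact (h2 a x v).2 fun i => h ⟨a, i⟩

theorem PK.one {φ : X → V →ₗ[K] K} (h : ∀ v, LP fun x => φ x v) :
    PK fun x => LinearMap.ker (φ x) :=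
  ⟨Unit, inferInstance, fun _ => φ, fun _ => h, fun x v => by simp⟩

theorem PK.comp {Z : X → Submodule K V} (hZ : PK Z) (L : Y →ₗ[K] X) : PK fun y => Z (L y) := by
  obtain ⟨ι, _, φ, h1, h2⟩ := hZ
  exact ⟨ι, inferInstance, fun i y => φ i (L y), fun i v => (h1 i v).comp_linear L,
    fun y v => h2 (L y) v⟩

theorem PK.comp_affine {Z : X → Submodule K V} (hZ : PK Z) (L : Y →ₗ[K] X) (c : X) :
    PK fun y => Z (L y + c) := by
  obtain ⟨ι, _, φ, h1, h2⟩ := hZ
  exact ⟨ι, inferInstance, fun i y => φ i (L y + c), fun i v => (h1 i v).comp_affine L c,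
    fun y v => h2 (L y + c) v⟩

theorem PK.comap {V' : Type*} [AddCommGroup V'] [Module K V'] {Z : X → Submodule K V}
    (hZ : PK Z) (A : V' →ₗ[K] V) : PK fun x => (Z x).comap A := by
  obtain ⟨ι, _, φ, h1, h2⟩ := hZ
  exact ⟨ι, inferInstance, fun i x => (φ i x).comp A, fun i v => h1 i (A v),
    fun x v => by rw [Submodule.mem_comap, h2]; rfl⟩

theorem PK.congr {Z W : X → Submodule K V} (hZ : PK Z) (h : ∀ x, Z x = W x) : PK W := by
  have : W = Z := funext fun x => (h x).symm
  rw [this]; exact hZ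

/-- injectivity is a generic property -/
theorem PK.gen_bot [FiniteDimensional K V] {Z : X → Submodule K V} (hZ : PK Z) {x₀ : X}
    (h0 : Z x₀ = ⊥) : Gen K fun x => Z x = ⊥ := by
  classical
  obtain ⟨ι, _, φ, h1, h2⟩ := hZ
  set A : X → V →ₗ[K] (ι → K) := fun x => LinearMap.pi fun i => φ i x with hA
  have hker : ∀ x, LinearMap.ker (A x) = Z x := by
    intro x
    ext v
    rw [LinearMap.mem_ker, h2]
    exact ⟨fun h i => congrFun h i, fun h => funext h⟩
  obtain ⟨L, hL⟩ := (A x₀).exists_leftInverse_of_injective ((hker x₀).trans h0)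
  let b := Module.finBasis K V
  refine ⟨fun x => (LinearMap.toMatrix b b (L ∘ₗ A x)).det, LP.det fun i j => ?_, ⟨x₀, ?_⟩,
    fun x hx => ?_⟩
  · simp only [LinearMap.toMatrix_apply, LinearMap.comp_apply]
    have e : ∀ x, b.repr (L (A x (b j))) i = ∑ k, (φ k x (b j)) * b.repr (L (Pi.single k 1)) i := by
      intro x
      have : A x (b j) = ∑ k, (φ k x (b j)) • (Pi.single k (1 : K) : ι → K) := by
        ext k
        simp [hA, Finset.sum_apply, Pi.single_apply]
      rw [this]
      simp [map_sum, Finsupp.finsetSum_apply]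
    simp only [e]
    exact LP.sum _ fun k _ => (h1 k _).mul (LP.const _)
  · simp only
    rw [hL, LinearMap.toMatrix_id, Matrix.det_one]
    exact one_ne_zero
  · simp only [LinearMap.det_toMatrix] at hx
    change Z x = ⊥
    rw [← hker x, LinearMap.ker_eq_bot']
    intro v hv
    have hinj : LinearMap.ker (L ∘ₗ A x) = ⊥ := by
      by_contra hne
      exact hx (LinearMap.det_eq_zero_iff_ker_ne_bot.2 hne)
    have : (L ∘ₗ A x) v = 0 := by simp [hv]
    have hv' : v ∈ LinearMap.ker (L ∘ₗ A x) := this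
    rw [hinj] at hv'
    simpa using hv'

/-- semicontinuity of the dimension -/
theorem PK.gen_finrank [FiniteDimensional K V] {Z : X → Submodule K V} (hZ : PK Z) {x₀ : X} {k : ℕ}
    (h0 : finrank K (Z x₀) ≤ k) : Gen K fun x => finrank K (Z x) ≤ k := by
  obtain ⟨C, hC⟩ := Submodule.exists_isCompl (Z x₀)
  have h1 : PK fun x => (Z x).comap C.subtype := hZ.comap _
  have h2 : (Z x₀).comap C.subtype = ⊥ := by
    rw [← Submodule.disjoint_iff_comap_eq_bot]
    exact hC.symm.disjoint
  refine (h1.gen_bot h2).mono fun x hx => ?_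
  rw [← Submodule.disjoint_iff_comap_eq_bot] at hx
  have h3 := Submodule.finrank_add_finrank_le_of_disjoint hx
  have h4 := Submodule.finrank_add_eq_of_isCompl hC
  omega

end PK

section RED

variable {K : Type*} [Field K] {V : Type*} [AddCommGroup V] [Module K V] [FiniteDimensional K V]
  {Y : Type*}

/-- general members of a family of functionals lower the dimension by one -/
theorem red (Ω : Y → V →ₗ[K] K) (W W' : Submodule K V)
    (h : ∀ w ∈ W, w ∉ W' → ∃ y, Ω y w ≠ 0) (k : ℕ) [Nonempty Y] :
    ∃ y : Fin k → Y, finrank K ↥(W ⊓ ⨅ i, LinearMap.ker (Ω (y i))) ≤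
      max (finrank K W - k) (finrank K W') := by
  induction k with
  | zero =>
    refine ⟨fun i => i.elim0, le_max_of_le_left ?_⟩
    exact Submodule.finrank_mono inf_le_left
  | succ k ih =>
    obtain ⟨y, hy⟩ := ih
    set U := W ⊓ ⨅ i, LinearMap.ker (Ω (y i)) with hU
    by_cases hUW : U ≤ W'
    · refine ⟨Fin.cons (Classical.arbitrary Y) y, le_max_of_le_right ?_⟩
      refine (Submodule.finrank_mono ?_).trans (Submodule.finrank_mono hUW)
      refine inf_le_inf_left _ (le_iInf fun i => ?_)
      exact (iInf_le _ i.succ).trans (by simp)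
    · obtain ⟨w, hwU, hwW⟩ := SetLike.not_le_iff_exists.1 hUW
      obtain ⟨y₀, hy₀⟩ := h w hwU.1 hwW
      refine ⟨Fin.cons y₀ y, ?_⟩
      have hlt : finrank K ↥(W ⊓ ⨅ i : Fin (k + 1), LinearMap.ker (Ω ((Fin.cons y₀ y : Fin (k + 1) → Y) i)))
          < finrank K U := by
        refine Submodule.finrank_lt_finrank_of_lt (lt_of_le_of_ne ?_ ?_)
        · refine inf_le_inf_left _ (le_iInf fun i => ?_)
          exact (iInf_le _ i.succ).trans (by simp)
        · intro he
          rw [← he] at hwU
          have := (Submodule.mem_iInf _).1 hwU.2 0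
          simp at this
          exact hy₀ this
      rcases le_total (finrank K W - k) (finrank K W') with h1 | h1
      · rw [max_eq_right h1] at hy
        exact le_max_of_le_right (by omega)
      · rw [max_eq_left h1] at hy
        exact le_max_of_le_left (by omega)

/-- rank-nullity for subspaces -/
theorem finrank_le_map_add_ker {V' : Type*} [AddCommGroup V'] [Module K V'] (ρ : V →ₗ[K] V')
    (Z : Submodule K V) :
    finrank K Z ≤ finrank K (Z.map ρ) + finrank K ↥(Z ⊓ LinearMap.ker ρ) := by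
  have h := (ρ.domRestrict Z).finrank_range_add_finrank_ker
  have h1 : LinearMap.range (ρ.domRestrict Z) = Z.map ρ := by
    rw [LinearMap.domRestrict, LinearMap.range_comp, Submodule.range_subtype]
  have h2 : finrank K (LinearMap.ker (ρ.domRestrict Z)) = finrank K ↥(Z ⊓ LinearMap.ker ρ) := by
    have e : LinearMap.ker (ρ.domRestrict Z) = (LinearMap.ker ρ).comap Z.subtype := by
      ext v; simp
    rw [e]
    have h3 := (Submodule.comapSubtypeEquivOfLe (p := Z ⊓ LinearMap.ker ρ) (q := Z) inf_le_left)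
    have h4 : (LinearMap.ker ρ).comap Z.subtype = (Z ⊓ LinearMap.ker ρ).comap Z.subtype := by
      ext v; simp
    rw [h4, h3.finrank_eq]
  rw [h1] at h
  omega

end RED

end Pool.Agent.War
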